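import Pool.Agent.W_7d29a1_Z74.Marg
import Pool.Agent.W_7d29a1_F.CoreD1
import Pool.Agent.W_7d29a1_F.CoreB1

/-!
STORM Z (MP_7d29a1_pr), leaf UR: the kernel with one jump as the ordinary kernel of the sheared environment. (helper74)
-/

namespace Pool.Agent.W_7d29a1_Z74

open Finset MeasureTheory Pool.Agent.W_7d29a1_F Pool.Agent.W_7d29a1_X Pool.Agent.W_7d29a1_Z

noncomputable section

variable {μ : MeasureTheory.Measure ℝ}

/-- The weights depend only on the rows which are used. -/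
theorem W_rows (s : ℝ) {η η' : Env} (a : Pt) (n : ℕ) (y : ℤ) (h : ∀ p : Pt, a.1 < p.1 → p.1 ≤ a.1 + n → η p = η' p) :
    W μ s η a n y = W μ s η' a n y := by
  unfold W WR
  congr 1
  refine Zr_dep Set.univ a n y (fun p hp => ?_)
  have hc : p ∈ cone a n y := hp.1
  exact h p hc.1 hc.2.1

/-- The environment whose rows behind the time `t` are shifted by `j`. -/
def shj (t : ℤ) (j : ℤ) (η : Env) : Env := fun p => if t < p.1 then η (p.1, p.2 + j) else η p

theorem W_shj_lt (s : ℝ) (η : Env) {t : ℤ} (j : ℤ) (a : Pt) (n : ℕ) (y : ℤ) (h : a.1 + n ≤ t) :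
    W μ s (shj t j η) a n y = W μ s η a n y := by
  refine W_rows s a n y fun p _ hp => ?_
  unfold shj
  rw [if_neg (by omega)]

theorem W_shj_ge (s : ℝ) (η : Env) {t : ℤ} (j : ℤ) (a : Pt) (n : ℕ) (y : ℤ) (h : t ≤ a.1) :
    W μ s (shj t j η) a n y = W μ s η (a.1, a.2 + j) n y := by
  have e1 : ((a.1, a.2 + j) : Pt) = a + (0, j) := by
    rw [Prod.ext_iff]
    simp
  rw [e1, ← W_sh]
  refine W_rows s a n y fun p hp _ => ?_
  unfold shj sh
  rw [if_pos (by omega)]
  congr 1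
  rw [Prod.ext_iff]
  simp

/-- The kernel with a jump. -/
theorem ZJ_shj (η : Env) (a : Pt) (m n : ℕ) (j y : ℤ) :
    ZJ μ 0 η a m n j y = W μ 0 (shj (a.1 + m) j η) a (m + n) (y - j) := by
  rw [W_add]
  unfold ZJ
  refine sum_congr rfl fun z _ => ?_
  rw [W_shj_lt 0 η j a m z (le_refl _), W_shj_ge 0 η j ((a.1 + m, a.2 + z) : Pt) n _ (le_refl _)]
  rw [show y - j - z = y - z - j by ring]

theorem sum_Icc_shift (n : ℕ) (y j : ℤ) (f : ℤ → ℝ) :
    ∑ b ∈ Icc (y - n) y, f b = ∑ b ∈ Icc (y - j - n) (y - j), f (b + j) := by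
  refine sum_bij' (fun b _ => b - j) (fun b _ => b + j) ?_ ?_ ?_ ?_ ?_
  · intro b hb
    rw [mem_Icc] at hb ⊢
    omega
  · intro b hb
    rw [mem_Icc] at hb ⊢
    omega
  · intro b _
    ring
  · intro b _
    ring
  · intro b _
    rw [sub_add_cancel]

/-- The window after the jump. -/
theorem ZA_shj (η : Env) (a : Pt) (m r n : ℕ) (j y : ℤ) (G : ℤ → Prop) [DecidablePred G] :
    ZA μ 0 η a m r n j y G = ZA μ 0 (shj (a.1 + m) j η) a m r n 0 (y - j) G := by
  unfold ZA
  refine sum_congr rfl fun z _ => ?_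
  rw [sum_Icc_shift n y j]
  refine sum_congr rfl fun b _ => ?_
  rw [W_shj_lt 0 η j a m z (le_refl _), W_shj_ge 0 η j ((a.1 + m, a.2 + z + 0) : Pt) r _ (le_refl _),
    W_shj_ge 0 η j ((a.1 + m + r, a.2 + b) : Pt) n _ (by simp)]
  have e1 : b + j - z - j = b - z - 0 := by ring
  have e2 : a.2 + (b + j) = a.2 + b + j := by ring
  have e3 : y - (b + j) = y - j - b := by ring
  rw [e1, e2, e3, add_zero]

/-- The window before the jump. -/
theorem ZB_shj (η : Env) (a : Pt) (m r n : ℕ) (j y : ℤ) (G : ℤ → Prop) [DecidablePred G] :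
    ZB μ 0 η a m r n j y G = ZA μ 0 (shj (a.1 + (m + r : ℕ)) j η) a m r n 0 (y - j) G := by
  unfold ZB ZA
  refine sum_congr rfl fun z _ => ?_
  rw [sum_Icc_shift n y j]
  refine sum_congr rfl fun b _ => ?_
  rw [W_shj_lt 0 η j a m z (by push_cast; omega), W_shj_lt 0 η j _ r _ (by push_cast; omega),
    W_shj_ge 0 η j ((a.1 + m + r, a.2 + b) : Pt) n _ (by push_cast; omega)]
  have e1 : b + j - z - j = b - z - 0 := by ring
  have e2 : a.2 + (b + j) = a.2 + b + j := by ring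
  have e3 : y - (b + j) = y - j - b := by ring
  rw [e1, e2, e3, add_zero]

/-- Translation. -/
theorem ZA_sh (η : Env) (c : Pt) (m r n : ℕ) (y : ℤ) (G : ℤ → Prop) [DecidablePred G] :
    ZA μ 0 (sh c η) 0 m r n 0 y G = ZA μ 0 η c m r n 0 y G := by
  unfold ZA
  refine sum_congr rfl fun z _ => sum_congr rfl fun b _ => ?_
  have e : ∀ (u v : ℤ), (((0 : Pt).1 + u, (0 : Pt).2 + v) : Pt) + c = (c.1 + u, c.2 + v) := by
    intro u v
    rw [Prod.ext_iff]
    constructor
    · simp [add_comm]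
    · simp [add_comm]
  rw [W_sh, W_sh, W_sh, zero_add]
  have e1 : (((0 : Pt).1 + (m : ℤ), (0 : Pt).2 + z + 0) : Pt) + c = (c.1 + m, c.2 + z + 0) := by
    rw [add_zero, add_zero]
    exact e m z
  have e2 : (((0 : Pt).1 + (m : ℤ) + (r : ℤ), (0 : Pt).2 + b) : Pt) + c = (c.1 + m + r, c.2 + b) := by
    rw [add_assoc, add_assoc c.1]
    exact e (m + r) b
  rw [e1, e2]

/-- The shears preserve the law. -/
theorem mp_shj [IsProbabilityMeasure μ] (t j : ℤ) : MeasurePreserving (shj t j) (law μ) (law μ) := by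
  have h := mp_reindex (μ := μ) (fun p : Pt => if t < p.1 then ((p.1, p.2 + j) : Pt) else p) (by
    rintro ⟨p1, p2⟩ ⟨q1, q2⟩ hpq
    simp only at hpq
    split_ifs at hpq with h1 h2 h2
    · rw [Prod.mk.injEq] at hpq ⊢
      omega
    · rw [Prod.mk.injEq] at hpq
      omega
    · rw [Prod.mk.injEq] at hpq
      omega
    · exact hpq)
  have e : shj t j = fun (η : Env) (p : Pt) => η (if t < p.1 then ((p.1, p.2 + j) : Pt) else p) := by
    funext η p
    unfold shj
    split_ifs <;> rfl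
  rw [e]
  exact h

/-! ### The pattern with one time -/

/-- The shift of the pattern with one time. -/
theorem sv_one {t k₀ : ℕ} (_hk : k₀ < t) (j : ℤ) (u i : ℕ) (hu : u ≤ k₀) (hi : i ≤ t) :
    sv (pat t 0 {k₀} fun _ => j) u i = if k₀ < i then j else 0 := by
  unfold sv
  have e : ∀ k ∈ Ico u i, pat t 0 {k₀} (fun _ => j) k = if k = k₀ then j else 0 := by
    intro k hk'
    rw [mem_Ico] at hk'
    unfold pat
    rw [Nat.sub_zero, Nat.mod_eq_of_lt (by omega)]
    by_cases h : k = k₀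
    · simp [h]
    · simp [h]
  rw [sum_congr rfl e, sum_ite_eq']
  by_cases h : k₀ < i
  · rw [if_pos h, if_pos (mem_Ico.2 ⟨hu, h⟩)]
  · rw [if_neg h, if_neg]
    rw [mem_Ico]
    omega

/-- The kernel of the pattern with one time, the time inside. -/
theorem fk_one {t k₀ : ℕ} (hk : k₀ < t) (j : ℤ) (η : Env) {u u' : ℕ} (hu : u ≤ k₀) (hu' : k₀ < u') (hut : u' ≤ t) (x y : ℤ) :
    fk μ (pat t 0 {k₀} fun _ => j) η u u' x y = Real.log (ZJ μ 0 η ((u : ℤ), x) (k₀ - u) (u' - k₀) (-j) (y - x)) := by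
  unfold fk
  rw [ZJ_shj, sv_one hk j u u' hu hut, if_pos hu']
  have e1 : k₀ - u + (u' - k₀) = u' - u := by omega
  rw [e1]
  congr 1
  have e2 : y - x - -j = y - x + j := by ring
  rw [e2]
  refine W_rows 0 _ _ _ fun p hp hp' => ?_
  simp only at hp hp'
  unfold shr shj
  have h1 : sv (pat t 0 {k₀} fun _ => j) u p.1.toNat = if k₀ < p.1.toNat then j else 0 :=
    sv_one hk j u _ hu (by omega)
  rw [h1]
  have e3 : ((((u : ℤ), x) : Pt).1 + ((k₀ - u : ℕ) : ℤ)) = k₀ := by
    simp only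
    omega
  rw [e3]
  by_cases h : (k₀ : ℤ) < p.1
  · rw [if_pos (show k₀ < p.1.toNat by omega), if_pos h]
    congr 1
  · rw [if_neg (show ¬ k₀ < p.1.toNat by omega), if_neg h, sub_zero]

theorem fk_zero (η : Env) (u u' : ℕ) (x y : ℤ) :
    fk μ 0 η u u' x y = Real.log (W μ 0 η ((u : ℤ), x) (u' - u) (y - x)) := by
  unfold fk
  have e : shr u 0 η = η := by
    funext p
    unfold shr sv
    simp
  rw [e]
  unfold sv
  simp

/-- The kernel of the pattern with one time, the time outside. -/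
theorem fk_out {t k₀ : ℕ} (_hk : k₀ < t) (j : ℤ) (η : Env) {u u' : ℕ} (h : k₀ < u ∨ u' ≤ k₀) (hut : u' ≤ t) (x y : ℤ) :
    fk μ (pat t 0 {k₀} fun _ => j) η u u' x y = fk μ 0 η u u' x y := by
  have e : ∀ i : ℕ, i ≤ u' → sv (pat t 0 {k₀} fun _ => j) u i = 0 := by
    intro i hi
    unfold sv
    refine sum_eq_zero fun k hk' => ?_
    rw [mem_Ico] at hk'
    unfold pat
    rw [Nat.sub_zero, Nat.mod_eq_of_lt (by omega), if_neg]
    rw [mem_singleton]
    omega
  unfold fk
  have e2 : W μ 0 (shr u (pat t 0 {k₀} fun _ => j) η) ((u : ℤ), x) (u' - u) (y - x + 0) =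
      W μ 0 (shr u 0 η) ((u : ℤ), x) (u' - u) (y - x + 0) := by
    rcases le_or_gt u' u with h1 | h1
    · have e3 : u' - u = 0 := by omega
      rw [e3]
      rfl
    · refine W_rows 0 _ _ _ fun p hp hp' => ?_
      simp only at hp hp'
      unfold shr
      rw [e _ (by omega)]
      unfold sv
      simp
  rw [e u' le_rfl, e2]
  unfold sv
  simp

end

end Pool.Agent.W_7d29a1_Z74
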