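import Mathlib

/-!
STORM Z (MP_7d29a1_pr), leaf UR: numbers. (helper74)
-/

namespace Pool.Agent.W_7d29a1_Z74

/-- The window is wide enough. -/
theorem num_D {Kv av ρ κ t r wr : ℝ} (hKv : 1 ≤ Kv) (hav : 0 < av) (ht1 : 1 ≤ t) (hr0 : 0 < r) (hr1 : t ^ ρ ≤ r) (hr8 : 8 ≤ r)
    (hκ1 : κ ≤ av * ρ / 2) (p3 : 4 * Kv ≤ t ^ (av * ρ / 2)) (hwr : wr ≤ Kv * r ^ (-av) * r) : t ^ κ * wr + 1 ≤ r / 2 := by
  have ht0 : 0 < t := by linarith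
  have k3 : r ^ (-av) ≤ t ^ (-(av * ρ)) := by
    have k4 : (t ^ ρ) ^ av ≤ r ^ av := Real.rpow_le_rpow (by positivity) hr1 hav.le
    rw [Real.rpow_neg hr0.le, Real.rpow_neg ht0.le, mul_comm av, Real.rpow_mul ht0.le]
    exact inv_anti₀ (by positivity) k4
  have k5 : t ^ κ * t ^ (-(av * ρ)) ≤ (t ^ (av * ρ / 2))⁻¹ := by
    rw [← Real.rpow_add ht0, ← Real.rpow_neg ht0.le]
    exact Real.rpow_le_rpow_of_exponent_le ht1 (by linarith)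
  have k6 : Kv * (t ^ (av * ρ / 2))⁻¹ ≤ 1 / 4 := by
    rw [← div_eq_mul_inv, div_le_iff₀ (by positivity)]
    linarith
  have k7 : t ^ κ * wr ≤ 1 / 4 * r := by
    calc t ^ κ * wr ≤ t ^ κ * (Kv * r ^ (-av) * r) := mul_le_mul_of_nonneg_left hwr (by positivity)
      _ ≤ t ^ κ * (Kv * t ^ (-(av * ρ)) * r) := by
        refine mul_le_mul_of_nonneg_left (mul_le_mul_of_nonneg_right (mul_le_mul_of_nonneg_left k3 (by linarith)) hr0.le)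
          (by positivity)
      _ = Kv * (t ^ κ * t ^ (-(av * ρ))) * r := by ring
      _ ≤ Kv * (t ^ (av * ρ / 2))⁻¹ * r :=
        mul_le_mul_of_nonneg_right (mul_le_mul_of_nonneg_left k5 (by linarith)) hr0.le
      _ ≤ 1 / 4 * r := mul_le_mul_of_nonneg_right k6 hr0.le
  linarith

/-- The response is small enough. -/
theorem num_M {K₀ ρ κ t E E1 : ℝ} (hK₀ : 1 ≤ K₀) (ht1 : 1 ≤ t) (hρ0 : 0 < ρ) (hκ2 : κ * K₀ ≤ ρ) (hκ3 : κ ≤ ρ) (hE : 0 < E)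
    (_hE1 : 0 < E1) (hEE : E ≤ 2 * t ^ ρ * E1) :
    (K₀ * (2 * t ^ κ) ^ K₀ + 2 * t ^ κ) * E + Real.log 2 ≤ ((K₀ * 2 ^ K₀ + 2) * 2 * E1 + 1) * t ^ (2 * ρ) := by
  have ht0 : 0 < t := by linarith
  have hK0 : 0 < K₀ := by linarith
  have k1 : (2 * t ^ κ) ^ K₀ ≤ 2 ^ K₀ * t ^ ρ := by
    rw [Real.mul_rpow (by norm_num) (by positivity), ← Real.rpow_mul ht0.le]
    exact mul_le_mul_of_nonneg_left (Real.rpow_le_rpow_of_exponent_le ht1 hκ2) (by positivity)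
  have k2 : 2 * t ^ κ ≤ 2 * t ^ ρ :=
    mul_le_mul_of_nonneg_left (Real.rpow_le_rpow_of_exponent_le ht1 hκ3) (by norm_num)
  have k4 : K₀ * (2 * t ^ κ) ^ K₀ + 2 * t ^ κ ≤ (K₀ * 2 ^ K₀ + 2) * t ^ ρ := by
    have := mul_le_mul_of_nonneg_left k1 hK0.le
    linarith
  have k5 : t ^ (2 * ρ) = t ^ ρ * t ^ ρ := by
    rw [← Real.rpow_add ht0]
    congr 1
    ring
  have k6 : 1 ≤ t ^ ρ := Real.one_le_rpow ht1 hρ0.le
  have k7 : Real.log 2 ≤ 1 := by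
    have := Real.log_two_lt_d9
    linarith
  have k8 : 1 ≤ t ^ ρ * t ^ ρ := one_le_mul_of_one_le_of_one_le k6 k6
  rw [k5]
  calc (K₀ * (2 * t ^ κ) ^ K₀ + 2 * t ^ κ) * E + Real.log 2
      ≤ (K₀ * 2 ^ K₀ + 2) * t ^ ρ * (2 * t ^ ρ * E1) + 1 :=
        add_le_add (mul_le_mul k4 hEE hE.le (by positivity)) k7
    _ ≤ (K₀ * 2 ^ K₀ + 2) * t ^ ρ * (2 * t ^ ρ * E1) + t ^ ρ * t ^ ρ := by linarith
    _ = ((K₀ * 2 ^ K₀ + 2) * 2 * E1 + 1) * (t ^ ρ * t ^ ρ) := by ring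

/-- The cone of `Rsp` is in the cone of NS. -/
theorem num_cone1 {δ δ₁ t N wt wN : ℝ} (ht1 : 1 ≤ t) (hδ0 : 0 < δ) (hδ1 : δ ≤ δ₁ / 2) (p4 : 33 ≤ t ^ (δ₁ / 2)) (hN0 : 0 < N)
    (hN1 : t ≤ 16 * N) (hwN : 1 ≤ wN) (k1 : N * wt ≤ 2 * (t * wN)) : 2 * (t ^ δ * wt) + 2 ≤ 2 * (t ^ δ₁ * wN) := by
  have ht0 : 0 < t := by linarith
  have htδ : 1 ≤ t ^ δ := Real.one_le_rpow ht1 hδ0.le
  have k2 : wt ≤ 32 * wN := by
    have k3 : N * wt ≤ N * (32 * wN) := by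
      have : t * wN ≤ 16 * N * wN := mul_le_mul_of_nonneg_right hN1 (by linarith)
      linarith
    exact le_of_mul_le_mul_left k3 hN0
  have k4 : t ^ δ₁ = t ^ (δ₁ / 2) * t ^ (δ₁ / 2) := by
    rw [← Real.rpow_add ht0]
    congr 1
    ring
  have k5 : t ^ δ ≤ t ^ (δ₁ / 2) := Real.rpow_le_rpow_of_exponent_le ht1 hδ1
  have k6 : 33 * t ^ δ ≤ t ^ δ₁ := by
    rw [k4]
    exact mul_le_mul p4 k5 (by positivity) (by positivity)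
  have k7 : t ^ δ * wt ≤ t ^ δ * (32 * wN) := mul_le_mul_of_nonneg_left k2 (by positivity)
  have k8 : 33 * t ^ δ * wN ≤ t ^ δ₁ * wN := mul_le_mul_of_nonneg_right k6 (by linarith)
  have k9 : 1 ≤ t ^ δ * wN := one_le_mul_of_one_le_of_one_le htδ hwN
  linarith

/-- The cone of `Rsp` is narrow. -/
theorem num_cone2 {Kv av δ t wt : ℝ} (ht64 : 64 ≤ t) (hδ2 : δ ≤ av / 2) (p5 : Kv * t ^ (1 - av / 2) ≤ 1 / 64 * t)
    (hwt0 : 0 ≤ wt) (hwt : wt ≤ Kv * t ^ (-av) * t) : 2 * (t ^ δ * wt) + 2 ≤ t / 16 := by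
  have ht0 : 0 < t := by linarith
  have ht1 : 1 ≤ t := by linarith
  have k3 : t ^ δ ≤ t ^ (av / 2) := Real.rpow_le_rpow_of_exponent_le ht1 hδ2
  have k4 : t ^ (1 - av / 2) = t ^ (av / 2) * t ^ (-av) * t := by
    rw [← Real.rpow_add ht0, ← Real.rpow_add_one ht0.ne']
    congr 1
    ring
  have k5 : t ^ δ * wt ≤ 1 / 64 * t := by
    calc t ^ δ * wt ≤ t ^ (av / 2) * (Kv * t ^ (-av) * t) := mul_le_mul k3 hwt hwt0 (by positivity)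
      _ = Kv * (t ^ (av / 2) * t ^ (-av) * t) := by ring
      _ ≤ 1 / 64 * t := by rw [← k4]; exact p5
  linarith

/-- The probability of irregular kernels. -/
theorem num_BK {A₀ a₀ g₀ κ cc t R r q : ℝ} (hA₀ : 0 < A₀) (ha₀ : 0 < a₀) (hg₀ : 0 < g₀) (ht : 64 ≤ t) (hR : R = 2 * t ^ κ)
    (hr0 : 0 < r) (hrt : 32 * r ≤ t) (hq : q ≤ (2 * (t + 1) + 1) ^ 2 * ((r + 2) * (A₀ * Real.exp (-(a₀ * R ^ g₀)))))
    (p7 : 100 * A₀ * t ^ (3 : ℝ) * Real.exp (-(a₀ * t ^ (κ * g₀))) ≤ 1 / 2 * Real.exp (-t ^ cc)) :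
    q ≤ 1 / 2 * Real.exp (-t ^ cc) := by
  have ht0 : 0 < t := by linarith
  refine hq.trans (le_trans ?_ p7)
  have k1 : (2 * (t + 1) + 1) ^ 2 ≤ 9 * t ^ 2 := by nlinarith
  have k2 : r + 2 ≤ 2 * t := by linarith
  have k3 : a₀ * t ^ (κ * g₀) ≤ a₀ * R ^ g₀ := by
    refine mul_le_mul_of_nonneg_left ?_ ha₀.le
    rw [Real.rpow_mul ht0.le]
    exact Real.rpow_le_rpow (by positivity) (by rw [hR]; linarith [Real.rpow_nonneg ht0.le κ]) hg₀.le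
  have k4 : Real.exp (-(a₀ * R ^ g₀)) ≤ Real.exp (-(a₀ * t ^ (κ * g₀))) := Real.exp_le_exp.2 (by linarith)
  have k5 : t ^ (3 : ℝ) = t ^ 3 := by
    rw [← Real.rpow_natCast]
    norm_num
  rw [k5]
  calc (2 * (t + 1) + 1) ^ 2 * ((r + 2) * (A₀ * Real.exp (-(a₀ * R ^ g₀))))
      ≤ 9 * t ^ 2 * (2 * t * (A₀ * Real.exp (-(a₀ * t ^ (κ * g₀))))) := by
        refine mul_le_mul k1 (mul_le_mul k2 (mul_le_mul_of_nonneg_left k4 hA₀.le) (by positivity) (by positivity))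
          (by positivity) (by positivity)
    _ = 18 * (A₀ * t ^ 3 * Real.exp (-(a₀ * t ^ (κ * g₀)))) := by ring
    _ ≤ 100 * (A₀ * t ^ 3 * Real.exp (-(a₀ * t ^ (κ * g₀)))) :=
      mul_le_mul_of_nonneg_right (by norm_num) (by positivity)
    _ = 100 * A₀ * t ^ 3 * Real.exp (-(a₀ * t ^ (κ * g₀))) := by ring

end Pool.Agent.W_7d29a1_Z74
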