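import Pool.Agent.W_7d29a1_F.CoreA1

/-!
STORM Z (MP_7d29a1_pr), the response of a kernel to a jump of the path at one time. Deterministic part. (helper74)

`ZJ η a m n j y` is the weight of the paths from `a` which make `m` steps, jump by `j`, make `n` more steps, and have the total
displacement `y` (the jump included). If the polymer without the jump (resp. with the jump) makes in the window of `r` steps after
the jump a displacement in a set `G` with the probability at least `1/2`, and if the kernel of the window changes by a factor of at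
most `exp M` when its start is moved by the jump and its displacement is in `G`, then the weights with and without the jump differ
by a factor of at most `2 exp M`. The same for the window before the jump.
-/

namespace Pool.Agent.W_7d29a1_Z74

open Finset Pool.Agent.W_7d29a1_F

noncomputable section

variable {μ : MeasureTheory.Measure ℝ} {s : ℝ}

/-- The pure comparison. -/
theorem resp_pure {ι κ : Type*} (I : Finset ι) (T : Finset κ) (U : ι → ℝ) (Q : κ → ℝ) (K K' : ι → κ → ℝ)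
    (G : ι → κ → Prop) [∀ i k, Decidable (G i k)] {M : ℝ} (hU : ∀ i ∈ I, 0 ≤ U i) (hQ : ∀ k ∈ T, 0 ≤ Q k)
    (hK' : ∀ i ∈ I, ∀ k ∈ T, 0 ≤ K' i k) (hG : ∀ i ∈ I, ∀ k ∈ T, G i k → K i k ≤ Real.exp M * K' i k)
    (hh : ∑ i ∈ I, ∑ k ∈ T, U i * K i k * Q k ≤ 2 * ∑ i ∈ I, ∑ k ∈ T, if G i k then U i * K i k * Q k else 0) :
    ∑ i ∈ I, ∑ k ∈ T, U i * K i k * Q k ≤ 2 * Real.exp M * ∑ i ∈ I, ∑ k ∈ T, U i * K' i k * Q k := by
  refine hh.trans ?_
  rw [mul_assoc]
  refine mul_le_mul_of_nonneg_left ?_ (by norm_num)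
  rw [mul_sum]
  refine sum_le_sum fun i hi => ?_
  rw [mul_sum]
  refine sum_le_sum fun k hk => ?_
  have h1 : 0 ≤ U i * K' i k * Q k := mul_nonneg (mul_nonneg (hU i hi) (hK' i hi k hk)) (hQ k hk)
  split_ifs with h
  · calc U i * K i k * Q k ≤ U i * (Real.exp M * K' i k) * Q k :=
          mul_le_mul_of_nonneg_right (mul_le_mul_of_nonneg_left (hG i hi k hk h) (hU i hi)) (hQ k hk)
      _ = Real.exp M * (U i * K' i k * Q k) := by ring
  · positivity

theorem W_nonneg (η : Env) (a : Pt) (n : ℕ) (y : ℤ) : 0 ≤ W μ s η a n y :=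
  mul_nonneg (Real.exp_pos _).le (Zr_nonneg _ _ _ _ _)

theorem W_zero (η : Env) (a : Pt) {n : ℕ} {y : ℤ} (h : ¬ (0 ≤ y ∧ y ≤ n)) : W μ s η a n y = 0 := by
  unfold W WR
  rw [Zr_eq_zero _ _ _ h, mul_zero]

theorem W_pos (η : Env) (a : Pt) {n : ℕ} {y : ℤ} (h0 : 0 ≤ y) (h1 : y ≤ n) : 0 < W μ s η a n y :=
  mul_pos (Real.exp_pos _) (Zr_pos _ _ h0 h1)

theorem W_add (η : Env) (a : Pt) (m n : ℕ) (y : ℤ) : W μ s η a (m + n) y =
    ∑ k ∈ Icc (0 : ℤ) m, W μ s η a m k * W μ s η (a.1 + m, a.2 + k) n (y - k) := by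
  unfold W WR
  rw [Zr_add, mul_sum]
  refine sum_congr rfl fun k _ => ?_
  have e : Real.exp (s * (y : ℝ) - ((m + n : ℕ) : ℝ) * lam μ s) =
      Real.exp (s * (k : ℝ) - m * lam μ s) * Real.exp (s * ((y - k : ℤ) : ℝ) - n * lam μ s) := by
    rw [← Real.exp_add]
    congr 1
    push_cast
    ring
  rw [e]
  ring

/-- Chapman - Kolmogorov with the positions counted from the end. -/
theorem W_add' (η : Env) (a : Pt) (m n : ℕ) (y : ℤ) : W μ s η a (m + n) y =
    ∑ b ∈ Icc (y - n) y, W μ s η a m b * W μ s η (a.1 + m, a.2 + b) n (y - b) := by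
  have h1 : ∀ k : ℤ, k ∉ Icc (0 : ℤ) m → W μ s η a m k * W μ s η (a.1 + m, a.2 + k) n (y - k) = 0 := fun k hk => by
    rw [W_zero, zero_mul]
    rwa [mem_Icc] at hk
  have h2 : ∀ k : ℤ, k ∉ Icc (y - n) y → W μ s η a m k * W μ s η (a.1 + m, a.2 + k) n (y - k) = 0 := fun k hk => by
    rw [W_zero (n := n), mul_zero]
    rw [mem_Icc] at hk
    omega
  rw [W_add, sum_subset (subset_union_left (s₁ := Icc (0 : ℤ) m) (s₂ := Icc (y - n) y)) fun k _ hk => h1 k hk,
    ← sum_subset (subset_union_right (s₁ := Icc (0 : ℤ) m) (s₂ := Icc (y - n) y)) fun k _ hk => h2 k hk]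

/-- The weight of the paths with a jump by `j` at the time `a.1 + m`. -/
def ZJ (μ : MeasureTheory.Measure ℝ) (s : ℝ) (η : Env) (a : Pt) (m n : ℕ) (j y : ℤ) : ℝ :=
  ∑ z ∈ Icc (0 : ℤ) m, W μ s η a m z * W μ s η (a.1 + m, a.2 + z + j) n (y - z - j)

theorem ZJ_zero (η : Env) (a : Pt) (m n : ℕ) (y : ℤ) : ZJ μ s η a m n 0 y = W μ s η a (m + n) y := by
  rw [W_add]
  unfold ZJ
  simp

theorem ZJ_nonneg (η : Env) (a : Pt) (m n : ℕ) (j y : ℤ) : 0 ≤ ZJ μ s η a m n j y :=
  sum_nonneg fun _ _ => mul_nonneg (W_nonneg _ _ _ _) (W_nonneg _ _ _ _)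

/-- The position at the end of the window after the jump. -/
theorem ZJ_after (η : Env) (a : Pt) (m r n : ℕ) (j y : ℤ) : ZJ μ s η a m (r + n) j y =
    ∑ z ∈ Icc (0 : ℤ) m, ∑ b ∈ Icc (y - n) y, W μ s η a m z * W μ s η (a.1 + m, a.2 + z + j) r (b - z - j) *
      W μ s η (a.1 + m + r, a.2 + b) n (y - b) := by
  unfold ZJ
  refine sum_congr rfl fun z _ => ?_
  rw [W_add', mul_sum]
  refine sum_bij' (fun b _ => b + (z + j)) (fun b _ => b - (z + j)) ?_ ?_ ?_ ?_ ?_
  · intro b hb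
    rw [mem_Icc] at hb ⊢
    omega
  · intro b hb
    rw [mem_Icc] at hb ⊢
    omega
  · intro b _
    ring
  · intro b _
    ring
  · intro b _
    rw [mul_assoc, show b + (z + j) - z - j = b by ring, show a.2 + (b + (z + j)) = a.2 + z + j + b by ring,
      show y - (b + (z + j)) = y - z - j - b by ring]

/-- The position at the beginning of the window before the jump. -/
theorem ZJ_before (η : Env) (a : Pt) (m r n : ℕ) (j y : ℤ) : ZJ μ s η a (m + r) n j y =
    ∑ z ∈ Icc (0 : ℤ) m, ∑ b ∈ Icc (y - n) y, W μ s η a m z * W μ s η (a.1 + m, a.2 + z) r (b - z - j) *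
      W μ s η (a.1 + m + r, a.2 + b) n (y - b) := by
  have e0 : ZJ μ s η a (m + r) n j y = ∑ b ∈ Icc (y - n) y, W μ s η a (m + r) (b - j) *
      W μ s η (a.1 + m + r, a.2 + b) n (y - b) := by
    unfold ZJ
    have h1 : ∀ k : ℤ, k ∉ Icc (0 : ℤ) ((m + r : ℕ) : ℤ) → W μ s η a (m + r) k *
        W μ s η (a.1 + ((m + r : ℕ) : ℤ), a.2 + k + j) n (y - k - j) = 0 := fun k hk => by
      rw [W_zero, zero_mul]
      rwa [mem_Icc] at hk
    have h2 : ∀ k : ℤ, k ∉ Icc (y - j - n) (y - j) → W μ s η a (m + r) k *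
        W μ s η (a.1 + ((m + r : ℕ) : ℤ), a.2 + k + j) n (y - k - j) = 0 := fun k hk => by
      rw [W_zero (n := n), mul_zero]
      rw [mem_Icc] at hk
      omega
    rw [sum_subset (subset_union_left (s₁ := Icc (0 : ℤ) ((m + r : ℕ) : ℤ)) (s₂ := Icc (y - j - n) (y - j)))
        fun k _ hk => h1 k hk,
      ← sum_subset (subset_union_right (s₁ := Icc (0 : ℤ) ((m + r : ℕ) : ℤ)) (s₂ := Icc (y - j - n) (y - j)))
        fun k _ hk => h2 k hk]
    refine sum_bij' (fun b _ => b + j) (fun b _ => b - j) ?_ ?_ ?_ ?_ ?_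
    · intro b hb
      rw [mem_Icc] at hb ⊢
      omega
    · intro b hb
      rw [mem_Icc] at hb ⊢
      omega
    · intro b _
      ring
    · intro b _
      ring
    · intro b _
      rw [show b + j - j = b by ring, show a.2 + (b + j) = a.2 + b + j by ring, show y - (b + j) = y - b - j by ring]
      push_cast
      rw [add_assoc a.1]
  rw [e0, sum_comm]
  refine sum_congr rfl fun b _ => ?_
  rw [W_add, sum_mul]
  refine sum_congr rfl fun z _ => ?_
  rw [show b - j - z = b - z - j by ring]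

/-- The part of the weight with a displacement in `G` in the window of `r` steps after the jump. -/
def ZA (μ : MeasureTheory.Measure ℝ) (s : ℝ) (η : Env) (a : Pt) (m r n : ℕ) (j y : ℤ) (G : ℤ → Prop) [DecidablePred G] : ℝ :=
  ∑ z ∈ Icc (0 : ℤ) m, ∑ b ∈ Icc (y - n) y, if G (b - z - j) then
    W μ s η a m z * W μ s η (a.1 + m, a.2 + z + j) r (b - z - j) * W μ s η (a.1 + m + r, a.2 + b) n (y - b) else 0

/-- The part of the weight with a displacement in `G` in the window of `r` steps before the jump. -/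
def ZB (μ : MeasureTheory.Measure ℝ) (s : ℝ) (η : Env) (a : Pt) (m r n : ℕ) (j y : ℤ) (G : ℤ → Prop) [DecidablePred G] : ℝ :=
  ∑ z ∈ Icc (0 : ℤ) m, ∑ b ∈ Icc (y - n) y, if G (b - z - j) then
    W μ s η a m z * W μ s η (a.1 + m, a.2 + z) r (b - z - j) * W μ s η (a.1 + m + r, a.2 + b) n (y - b) else 0

/-- **The response of one jump**, window after it. -/
theorem resp_after (η : Env) (a : Pt) (m r n : ℕ) (j j' y : ℤ) (G : ℤ → Prop) [DecidablePred G] {M : ℝ}
    (hK : ∀ z ∈ Icc (0 : ℤ) m, ∀ b ∈ Icc (y - n) y, G (b - z - j) →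
      W μ s η (a.1 + m, a.2 + z + j) r (b - z - j) ≤ Real.exp M * W μ s η (a.1 + m, a.2 + z + j') r (b - z - j'))
    (hh : ZJ μ s η a m (r + n) j y ≤ 2 * ZA μ s η a m r n j y G) :
    ZJ μ s η a m (r + n) j y ≤ 2 * Real.exp M * ZJ μ s η a m (r + n) j' y := by
  unfold ZA at hh
  rw [ZJ_after] at hh ⊢
  rw [ZJ_after]
  exact resp_pure (Icc (0 : ℤ) m) (Icc (y - n) y) (fun z => W μ s η a m z)
    (fun b => W μ s η (a.1 + m + r, a.2 + b) n (y - b)) (fun z b => W μ s η (a.1 + m, a.2 + z + j) r (b - z - j))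
    (fun z b => W μ s η (a.1 + m, a.2 + z + j') r (b - z - j')) (fun z b => G (b - z - j))
    (fun _ _ => W_nonneg _ _ _ _) (fun _ _ => W_nonneg _ _ _ _) (fun _ _ _ _ => W_nonneg _ _ _ _) hK hh

/-- **The response of one jump**, window before it. -/
theorem resp_before (η : Env) (a : Pt) (m r n : ℕ) (j j' y : ℤ) (G : ℤ → Prop) [DecidablePred G] {M : ℝ}
    (hK : ∀ z ∈ Icc (0 : ℤ) m, ∀ b ∈ Icc (y - n) y, G (b - z - j) →
      W μ s η (a.1 + m, a.2 + z) r (b - z - j) ≤ Real.exp M * W μ s η (a.1 + m, a.2 + z) r (b - z - j'))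
    (hh : ZJ μ s η a (m + r) n j y ≤ 2 * ZB μ s η a m r n j y G) :
    ZJ μ s η a (m + r) n j y ≤ 2 * Real.exp M * ZJ μ s η a (m + r) n j' y := by
  unfold ZB at hh
  rw [ZJ_before] at hh ⊢
  rw [ZJ_before]
  exact resp_pure (Icc (0 : ℤ) m) (Icc (y - n) y) (fun z => W μ s η a m z)
    (fun b => W μ s η (a.1 + m + r, a.2 + b) n (y - b)) (fun z b => W μ s η (a.1 + m, a.2 + z) r (b - z - j))
    (fun z b => W μ s η (a.1 + m, a.2 + z) r (b - z - j')) (fun z b => G (b - z - j))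
    (fun _ _ => W_nonneg _ _ _ _) (fun _ _ => W_nonneg _ _ _ _) (fun _ _ _ _ => W_nonneg _ _ _ _) hK hh

end

end Pool.Agent.W_7d29a1_Z74
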