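import Pool.Agent.W_7d29a1_Z74.P2P
import Pool.Agent.W_7d29a1_Z74.Resp

/-!
STORM Z (MP_7d29a1_pr): the two-sided bounds of all kernels of the duration `r` with the starts in a box, outside an event of
small probability. (helper74)
-/

namespace Pool.Agent.W_7d29a1_Z74

open MeasureTheory ProbabilityTheory Filter Topology
open Pool.Agent.W_7d29a1_F Pool.Agent.W_7d29a1_h4g Pool.Agent.W_7d29a1_G Pool.Agent.W_7d29a1_L
open Pool.Agent.W_7d29a1_SR Pool.Agent.W_7d29a1_X50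

noncomputable section

/-- The sites `|t|, |x| ≤ H`. -/
def bx (H : ℕ) : Finset Pt := Finset.Icc (-(H : ℤ)) H ×ˢ Finset.Icc (-(H : ℤ)) H

theorem mem_bx {H : ℕ} {a : Pt} : a ∈ bx H ↔ |a.1| ≤ H ∧ |a.2| ≤ H := by
  unfold bx
  rw [Finset.mem_product, Finset.mem_Icc, Finset.mem_Icc, abs_le, abs_le]

theorem card_bx (H : ℕ) : ((bx H).card : ℝ) = (2 * H + 1) ^ 2 := by
  unfold bx
  rw [Finset.card_product, Int.card_Icc]
  have e : ((H : ℤ) + 1 - -(H : ℤ)).toNat = 2 * H + 1 := by omega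
  rw [e]
  push_cast
  ring

/-- The kernels of the duration `r` with the starts in the box `H` are regular. -/
def BK (μ : Measure ℝ) (K R : ℝ) (H r : ℕ) : Set Env :=
  {η | ∀ a ∈ bx H, ∀ y : ℤ, W μ 0 η a r y ≤ Real.exp (R * EE μ r) ∧
    (0 ≤ y → y ≤ r → |(y : ℝ) - r / 2| ≤ R * wd μ r → Real.exp (-(K * R ^ K * EE μ r)) ≤ W μ 0 η a r y)}

variable {μ : Measure ℝ} [IsProbabilityMeasure μ] {c C : ℝ} {n₀ : ℕ}

omit [IsProbabilityMeasure μ] in
theorem W_le_exp_V (η : Env) (a : Pt) (n : ℕ) (y : ℤ) : W μ 0 η a n y ≤ Real.exp (V μ 0 η a n) := by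
  have h := WS_le_exp_V (μ := μ) (s := 0) η a n {y}
  unfold WS at h
  rwa [Finset.sum_singleton] at h

theorem real_V (a : Pt) (n : ℕ) (r : ℝ) :
    (law μ).real {η | r ≤ V μ 0 η a n} = (law μ).real {η | r ≤ V μ 0 η 0 n} := by
  have hm : MeasurableSet {η : Env | r ≤ V μ 0 η 0 n} := measurableSet_le measurable_const (measurable_V 0 n)
  have h := real_sh (μ := μ) a hm
  have e1 : {η | sh a η ∈ {η : Env | r ≤ V μ 0 η 0 n}} = {η | r ≤ V μ 0 η a n} := by
    ext η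
    simp only [Set.mem_ofPred_eq, V_sh, zero_add]
  rw [← h, e1]

theorem real_X' (a : Pt) (n : ℕ) (y : ℤ) (r : ℝ) :
    (law μ).real {η | r ≤ X μ 0 η a n y} = (law μ).real {η | r ≤ X μ 0 η 0 n y} := by
  have hm : MeasurableSet {η : Env | r ≤ X μ 0 η 0 n y} :=
    measurableSet_le measurable_const (Real.measurable_log.comp (measurable_W (μ := μ) (s := 0) 0 n y)).neg
  have h := real_sh (μ := μ) a hm
  have e1 : {η | sh a η ∈ {η : Env | r ≤ X μ 0 η 0 n y}} = {η | r ≤ X μ 0 η a n y} := by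
    ext η
    simp only [Set.mem_ofPred_eq, X_sh, zero_add]
  rw [← h, e1]

/-- **The kernels are regular**, outside an event of small probability. -/
theorem BK_prob (h : In μ c C n₀) (hF : HF2 μ) : ∃ K A a g : ℝ, 1 ≤ K ∧ 0 < A ∧ 0 < a ∧ 0 < g ∧ g ≤ 1 ∧
    ∀ r : ℕ, 1 ≤ r → ∀ (H : ℕ) (R : ℝ), 1 ≤ R →
    (law μ).real (BK μ K R H r)ᶜ ≤ (2 * H + 1) ^ 2 * ((r + 2) * (A * Real.exp (-(a * R ^ g)))) := by
  obtain ⟨K, A₁, a₁, g, hK, hA₁, ha₁, hg, hg1, h1⟩ := p2p_tail h hF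
  obtain ⟨A₂, a₂, hA₂, ha₂, h2⟩ := upper_V_exp h
  refine ⟨K, max A₁ A₂, min a₁ a₂, g, hK, lt_max_of_lt_left hA₁, lt_min ha₁ ha₂, hg, hg1, fun r hr H R hR => ?_⟩
  obtain ⟨q, hq⟩ : ∃ q : ℝ, q = max A₁ A₂ * Real.exp (-(min a₁ a₂ * R ^ g)) := ⟨_, rfl⟩
  rw [← hq]
  have hR0 : 0 < R := by linarith
  have hRg : R ^ g ≤ R := by
    calc R ^ g ≤ R ^ (1 : ℝ) := Real.rpow_le_rpow_of_exponent_le hR hg1
      _ = R := Real.rpow_one R
  have hRg0 : 0 ≤ R ^ g := by positivity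
  have hq0 : 0 ≤ q := by rw [hq]; positivity
  have q1 : A₁ * Real.exp (-(a₁ * R ^ g)) ≤ q := by
    rw [hq]
    refine mul_le_mul (le_max_left _ _) (Real.exp_le_exp.2 ?_) (Real.exp_pos _).le (by positivity)
    have := mul_le_mul_of_nonneg_right (min_le_left a₁ a₂) hRg0
    linarith
  have q2 : A₂ * Real.exp (-(a₂ * R)) ≤ q := by
    rw [hq]
    refine mul_le_mul (le_max_right _ _) (Real.exp_le_exp.2 ?_) (Real.exp_pos _).le (by positivity)
    have := mul_le_mul (min_le_right a₁ a₂) hRg hRg0 ha₂.le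
    linarith
  have hsub : (BK μ K R H r)ᶜ ⊆ ⋃ a ∈ bx H, ({η | R * EE μ r ≤ V μ 0 η a r} ∪
      ⋃ y ∈ Finset.Icc (0 : ℤ) r, {η | |(y : ℝ) - r / 2| ≤ R * wd μ r ∧ K * R ^ K * EE μ r ≤ X μ 0 η a r y}) := by
    intro η hη
    by_contra hc
    refine hη fun a ha y => ?_
    simp only [Set.mem_iUnion, Set.mem_union, not_exists, not_or] at hc
    obtain ⟨hc1, hc2⟩ := hc a ha
    rw [Set.mem_ofPred_eq, not_le] at hc1
    refine ⟨(W_le_exp_V η a r y).trans (Real.exp_le_exp.2 hc1.le), fun hy0 hy1 hy => ?_⟩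
    have hc3 := hc2 y (Finset.mem_Icc.2 ⟨hy0, hy1⟩)
    rw [Set.mem_ofPred_eq, not_and, not_le] at hc3
    have hc4 := hc3 hy
    unfold X at hc4
    have hp := W_pos (μ := μ) (s := 0) η a hy0 hy1
    rw [← Real.exp_log hp]
    exact Real.exp_le_exp.2 (by linarith)
  have hone : ∀ a ∈ bx H, (law μ).real ({η | R * EE μ r ≤ V μ 0 η a r} ∪
      ⋃ y ∈ Finset.Icc (0 : ℤ) r, {η | |(y : ℝ) - r / 2| ≤ R * wd μ r ∧ K * R ^ K * EE μ r ≤ X μ 0 η a r y}) ≤ (r + 2) * q := by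
    intro a _
    refine (measureReal_union_le _ _).trans ?_
    have e1 : (law μ).real {η | R * EE μ r ≤ V μ 0 η a r} ≤ q := by
      rw [real_V]
      exact (h2 r hr R hR0.le).trans q2
    have e2 : (law μ).real (⋃ y ∈ Finset.Icc (0 : ℤ) r,
        {η | |(y : ℝ) - r / 2| ≤ R * wd μ r ∧ K * R ^ K * EE μ r ≤ X μ 0 η a r y}) ≤ (r + 1) * q := by
      refine (measureReal_biUnion_finset_le _ _).trans ?_
      have e3 : ∀ y ∈ Finset.Icc (0 : ℤ) r,
          (law μ).real {η | |(y : ℝ) - r / 2| ≤ R * wd μ r ∧ K * R ^ K * EE μ r ≤ X μ 0 η a r y} ≤ q := by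
        intro y hy
        rw [Finset.mem_Icc] at hy
        by_cases hw : |(y : ℝ) - r / 2| ≤ R * wd μ r
        · have e4 : {η | |(y : ℝ) - r / 2| ≤ R * wd μ r ∧ K * R ^ K * EE μ r ≤ X μ 0 η a r y} =
              {η | K * R ^ K * EE μ r ≤ X μ 0 η a r y} := by
            ext η
            simp [hw]
          rw [e4, real_X']
          exact (h1 r hr y hy.1 hy.2 R hR hw).trans q1
        · have e4 : {η | |(y : ℝ) - r / 2| ≤ R * wd μ r ∧ K * R ^ K * EE μ r ≤ X μ 0 η a r y} = (∅ : Set Env) := by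
            ext η
            simp [hw]
          rw [e4, measureReal_empty]
          exact hq0
      refine (Finset.sum_le_card_nsmul _ _ _ e3).trans (le_of_eq ?_)
      rw [Int.card_Icc, nsmul_eq_mul]
      have e5 : ((r : ℤ) + 1 - 0).toNat = r + 1 := by omega
      rw [e5]
      push_cast
      ring
    linarith
  refine (measureReal_mono hsub (measure_ne_top _ _)).trans ((measureReal_biUnion_finset_le _ _).trans ?_)
  refine (Finset.sum_le_card_nsmul _ _ _ hone).trans (le_of_eq ?_)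
  rw [nsmul_eq_mul, card_bx]

end

end Pool.Agent.W_7d29a1_Z74
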