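import Pool.Agent.W_7d29a1_X50.Unl
import Pool.Agent.W_7d29a1_SR.Reg2
import Pool.Agent.W_7d29a1_SR.MomE

/-!
STORM Z (MP_7d29a1_pr): the cost of the displacements of at most `R` widths is at most `K R ^ K` units, outside an event of
probability `A exp (- a R ^ g)`; the luck is at most `R` units, outside an event of probability `A exp (- a R)`. (helper74)
-/

namespace Pool.Agent.W_7d29a1_Z74

open MeasureTheory ProbabilityTheory Filter Topology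
open Pool.Agent.W_7d29a1_F Pool.Agent.W_7d29a1_h4g Pool.Agent.W_7d29a1_G Pool.Agent.W_7d29a1_L
open Pool.Agent.W_7d29a1_SR Pool.Agent.W_7d29a1_X50

variable {μ : Measure ℝ} [IsProbabilityMeasure μ] {c C : ℝ} {n₀ : ℕ}

/-- The rate function on the cone of `R` widths. -/
theorem J_cone (h : In μ c C n₀) (hF : HF2 μ) : ∃ K : ℝ, 1 ≤ K ∧ ∀ m : ℕ, 1 ≤ m → ∀ R u : ℝ, 1 ≤ R → |u| ≤ 1 / 2 →
    |u| ≤ R * vA μ 1 m → m * J μ u ≤ K * R ^ K * EE μ m := by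
  obtain ⟨a₀, K₁, ha₀, hK₁, hreg⟩ := J_reg h hF
  obtain ⟨a, ha⟩ : ∃ a : ℝ, a = min a₀ (1 / 2) := ⟨_, rfl⟩
  have ha0 : 0 < a := by rw [ha]; positivity
  have haa : a ≤ a₀ := by rw [ha]; exact min_le_left _ _
  have hah : a ≤ 1 / 2 := by rw [ha]; exact min_le_right _ _
  have hJa : 0 < J μ a := J_pos h.em h.nd ha0 hah
  obtain ⟨K₂, hK₂⟩ : ∃ K₂ : ℝ, K₂ = J μ (1 / 2) / J μ a := ⟨_, rfl⟩
  have hK₂1 : 1 ≤ K₂ := by
    rw [hK₂, le_div_iff₀ hJa, one_mul]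
    exact J_mono' h.em ha0.le hah le_rfl
  have hK₂e : J μ (1 / 2) = K₂ * J μ a := by rw [hK₂]; field_simp
  have hK : K₁ ≤ K₁ * K₂ := le_mul_of_one_le_right (by linarith) hK₂1
  refine ⟨K₁ * K₂, hK₁.trans hK, fun m hm R u hR hu huR => ?_⟩
  rw [← J_abs h.em u]
  obtain ⟨v, hv⟩ : ∃ v : ℝ, v = |u| := ⟨_, rfl⟩
  have hv0 : 0 ≤ v := by rw [hv]; exact abs_nonneg _
  rw [← hv] at hu huR ⊢
  obtain ⟨w, hw⟩ : ∃ w : ℝ, w = vA μ 1 m := ⟨_, rfl⟩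
  have hw0 : 0 < w := by rw [hw]; exact vA_pos h.em one_pos m
  have hwh : w ≤ 1 / 2 := by rw [hw]; exact vA_le h.em zero_le_one m
  have hwJ : m * J μ w ≤ EE μ m := by
    have := vA_mem h.em zero_le_one m
    rw [one_mul] at this
    rwa [hw]
  rw [← hw] at huR
  have hm0 : (0 : ℝ) < m := by exact_mod_cast hm
  have hE : 0 < EE μ m := lt_of_lt_of_le one_pos (one_le_EE m)
  have hJw : 0 ≤ J μ w := J_nonneg h.em (by rw [abs_of_pos hw0]; exact hwh)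
  have hR0 : 0 < R := by linarith
  have hRK1 : 1 ≤ R ^ K₁ := Real.one_le_rpow hR (by linarith)
  have hRK : R ^ K₁ ≤ R ^ (K₁ * K₂) := Real.rpow_le_rpow_of_exponent_le hR hK
  -- the value at `x ≤ min a (R w)`
  have key : ∀ x : ℝ, 0 ≤ x → x ≤ a → x ≤ R * w → J μ x ≤ K₁ * R ^ K₁ * J μ w := by
    intro x hx hxa hxR
    rcases le_or_gt x w with h1 | h1
    · have h2 := J_mono' h.em hx h1 hwh
      refine h2.trans (le_mul_of_one_le_left hJw ?_)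
      nlinarith
    · have h3 : 1 ≤ x / w := (one_le_div hw0).2 h1.le
      have h4 : x / w * w = x := div_mul_cancel₀ _ hw0.ne'
      have h5 := (hreg w (x / w) hw0 h3 (by rw [h4]; exact hxa.trans haa)).2
      rw [h4] at h5
      refine h5.trans (mul_le_mul_of_nonneg_right ?_ hJw)
      refine mul_le_mul_of_nonneg_left (Real.rpow_le_rpow (by positivity) ?_ (by linarith)) (by linarith)
      rwa [div_le_iff₀ hw0]
  have key2 : J μ v ≤ K₂ * (K₁ * R ^ K₁ * J μ w) := by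
    have hp : 0 ≤ K₁ * R ^ K₁ * J μ w := by positivity
    rcases le_or_gt v a with h1 | h1
    · exact (key v hv0 h1 huR).trans (le_mul_of_one_le_left hp hK₂1)
    · calc J μ v ≤ J μ (1 / 2) := J_mono' h.em hv0 hu le_rfl
        _ = K₂ * J μ a := hK₂e
        _ ≤ K₂ * (K₁ * R ^ K₁ * J μ w) :=
          mul_le_mul_of_nonneg_left (key a ha0.le le_rfl (h1.le.trans huR)) (by linarith)
  calc m * J μ v ≤ m * (K₂ * (K₁ * R ^ K₁ * J μ w)) := mul_le_mul_of_nonneg_left key2 hm0.le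
    _ = K₁ * K₂ * R ^ K₁ * (m * J μ w) := by ring
    _ ≤ K₁ * K₂ * R ^ K₁ * EE μ m := mul_le_mul_of_nonneg_left hwJ (by positivity)
    _ ≤ K₁ * K₂ * R ^ (K₁ * K₂) * EE μ m := by
      refine mul_le_mul_of_nonneg_right (mul_le_mul_of_nonneg_left hRK (by positivity)) hE.le

theorem Dj_of (h : In μ c C n₀) (hF : HF2 μ) : Dj μ := by
  obtain ⟨K, v₀, _, hv₀, _, hd⟩ := J_dbl h hF
  exact ⟨K, v₀, hv₀, hd⟩

/-- **The cost of the displacements of at most `R` widths**, start `0`. -/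
theorem p2p_tail (h : In μ c C n₀) (hF : HF2 μ) : ∃ K A a g : ℝ, 1 ≤ K ∧ 0 < A ∧ 0 < a ∧ 0 < g ∧ g ≤ 1 ∧
    ∀ m : ℕ, 1 ≤ m → ∀ y : ℤ, 0 ≤ y → y ≤ m → ∀ R : ℝ, 1 ≤ R → |(y : ℝ) - m / 2| ≤ R * wd μ m →
    (law μ).real {η | K * R ^ K * EE μ m ≤ X μ 0 η 0 m y} ≤ A * Real.exp (-(a * R ^ g)) := by
  obtain ⟨K₀, hK₀, hJ⟩ := J_cone h hF
  obtain ⟨C₁, A, a, g, hC₁, hA, ha, hg, hg1, hU⟩ := unlucky_all h (Dj_of h hF)
  have hK1 : 1 ≤ C₁ + C₁ * K₀ + 1 + K₀ := by nlinarith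
  refine ⟨C₁ + C₁ * K₀ + 1 + K₀, A, a, g, hK1, hA, ha, hg, hg1, fun m hm y hy0 hy1 R hR hy => ?_⟩
  obtain ⟨K, hK⟩ : ∃ K : ℝ, K = C₁ + C₁ * K₀ + 1 + K₀ := ⟨_, rfl⟩
  rw [← hK] at hK1 ⊢
  have hm0 : (0 : ℝ) < m := by exact_mod_cast hm
  have hR0 : 0 < R := by linarith
  have hE : 0 < EE μ m := lt_of_lt_of_le one_pos (one_le_EE m)
  refine (measureReal_mono (fun η hη => ?_) (measure_ne_top _ _)).trans (hU m hm y hy0 hy1 R hR0.le)
  rw [Set.mem_ofPred_eq] at hη ⊢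
  refine le_trans ?_ hη
  have h1 : |((y : ℝ) - m / 2) / m| ≤ 1 / 2 := by
    rw [abs_div, abs_of_pos hm0, div_le_iff₀ hm0, abs_le]
    have e1 : (0 : ℝ) ≤ y := by exact_mod_cast hy0
    have e2 : (y : ℝ) ≤ m := by exact_mod_cast hy1
    constructor <;> linarith
  have h2 : |((y : ℝ) - m / 2) / m| ≤ R * vA μ 1 m := by
    rw [abs_div, abs_of_pos hm0, div_le_iff₀ hm0]
    unfold wd at hy
    linarith
  have h3 := hJ m hm R _ hR h1 h2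
  have h4 : (1 : ℝ) ≤ R ^ K := Real.one_le_rpow hR (by linarith)
  have h5 : R ^ K₀ ≤ R ^ K := Real.rpow_le_rpow_of_exponent_le hR (by rw [hK]; nlinarith)
  have h6 : R ≤ R ^ K := by
    calc R = R ^ (1 : ℝ) := (Real.rpow_one R).symm
      _ ≤ R ^ K := Real.rpow_le_rpow_of_exponent_le hR hK1
  have h7 : C₁ * (EE μ m + m * J μ (((y : ℝ) - m / 2) / m)) + R * EE μ m ≤
      (C₁ + C₁ * K₀ * R ^ K₀ + R) * EE μ m := by nlinarith [mul_le_mul_of_nonneg_left h3 hC₁.le]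
  refine h7.trans (mul_le_mul_of_nonneg_right ?_ hE.le)
  have h8 : C₁ * K₀ * R ^ K₀ ≤ C₁ * K₀ * R ^ K := mul_le_mul_of_nonneg_left h5 (by positivity)
  have h9 : C₁ ≤ C₁ * R ^ K := le_mul_of_one_le_right hC₁.le h4
  rw [hK] at h4 h6 h8 h9 ⊢
  have h10 : 0 ≤ K₀ * R ^ (C₁ + C₁ * K₀ + 1 + K₀) := by positivity
  linarith

end Pool.Agent.W_7d29a1_Z74
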