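import Pool.Agent.W_7d29a1_Z.Defs
import Pool.Agent.W_7d29a1_Z74.Resp

/-!
STORM Z (MP_7d29a1_pr): the law of the positions at two times under the polymer with fixed end point, and the annealed probability
`P1` of an event of the positions at two times. (helper74)
-/

namespace Pool.Agent.W_7d29a1_Z74

open Finset MeasureTheory Pool.Agent.W_7d29a1_F Pool.Agent.W_7d29a1_X Pool.Agent.W_7d29a1_Z
open scoped ENNReal

noncomputable section

variable {μ : MeasureTheory.Measure ℝ}

/-- Two positions. -/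
theorem sum_two (η : Env) (m r n : ℕ) (y : ℤ) (g : ℤ → ℤ → ℝ) :
    Mt μ 0 η (m + r + n) (fun S => g (pos S m) (pos S (m + r))) y =
      ∑ z ∈ Icc (0 : ℤ) m, ∑ b ∈ Icc (y - n) y, g z b * (W μ 0 η 0 m z * W μ 0 η ((m : ℤ), z) r (b - z) *
        W μ 0 η (((m + r : ℕ) : ℤ), b) n (y - b)) := by
  have e1 : (fun S => g (pos S m) (pos S (m + r))) = fun S : Finset ℕ => (fun T : Finset ℕ => g (pos T m) (pos T (m + r)))
      (S ∩ range (m + r)) := by
    funext S
    simp only
    rw [pos_inter S (show m ≤ m + r by omega), pos_inter S (le_refl (m + r))]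
  rw [e1, Mt_add η (m + r) n (fun T : Finset ℕ => g (pos T m) (pos T (m + r))) y]
  have e2 : ∀ b : ℤ, Mt μ 0 η (m + r) (fun T : Finset ℕ => g (pos T m) (pos T (m + r))) b =
      ∑ z ∈ Icc (0 : ℤ) m, g z b * (W μ 0 η 0 m z * W μ 0 η ((m : ℤ), z) r (b - z)) := by
    intro b
    have e3 : Mt μ 0 η (m + r) (fun T : Finset ℕ => g (pos T m) (pos T (m + r))) b =
        Mt μ 0 η (m + r) (fun S : Finset ℕ => (fun T : Finset ℕ => g (pos T m) b) (S ∩ range m)) b := by
      unfold Mt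
      refine sum_congr rfl fun S _ => ?_
      split_ifs with h
      · simp only
        rw [h, pos_inter S le_rfl]
      · rfl
    rw [e3, Mt_add η m r (fun T : Finset ℕ => g (pos T m) b) b]
    refine sum_congr rfl fun z _ => ?_
    have e4 : Mt μ 0 η m (fun T : Finset ℕ => g (pos T m) b) z = g z b * Mt μ 0 η m (fun _ => 1) z := by
      unfold Mt
      rw [mul_sum]
      refine sum_congr rfl fun S _ => ?_
      split_ifs with h
      · simp only
        rw [h]
        ring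
      · ring
    rw [e4, Mt_one]
    ring
  have e5 : ∀ b : ℤ, b ∉ Icc (0 : ℤ) ((m + r : ℕ) : ℤ) →
      Mt μ 0 η (m + r) (fun T : Finset ℕ => g (pos T m) (pos T (m + r))) b * W μ 0 η (((m + r : ℕ) : ℤ), b) n (y - b) = 0 := by
    intro b hb
    rw [Mt_eq_zero, zero_mul]
    rwa [mem_Icc] at hb
  have e6 : ∀ b : ℤ, b ∉ Icc (y - n) y →
      Mt μ 0 η (m + r) (fun T : Finset ℕ => g (pos T m) (pos T (m + r))) b * W μ 0 η (((m + r : ℕ) : ℤ), b) n (y - b) = 0 := by
    intro b hb
    rw [W_zero (n := n), mul_zero]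
    rw [mem_Icc] at hb
    omega
  rw [sum_subset (subset_union_left (s₁ := Icc (0 : ℤ) ((m + r : ℕ) : ℤ)) (s₂ := Icc (y - n) y)) fun b _ hb => e5 b hb,
    ← sum_subset (subset_union_right (s₁ := Icc (0 : ℤ) ((m + r : ℕ) : ℤ)) (s₂ := Icc (y - n) y)) fun b _ hb => e6 b hb,
    sum_comm]
  refine sum_congr rfl fun b _ => ?_
  rw [e2, sum_mul]
  refine sum_congr rfl fun z _ => ?_
  ring

/-- The part of the weight with a displacement in `G` in the window. -/
theorem Mt_ZA (η : Env) (m r n : ℕ) (y : ℤ) (G : ℤ → Prop) [DecidablePred G] :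
    Mt μ 0 η (m + r + n) (fun S => if G (pos S (m + r) - pos S m) then 1 else 0) y = ZA μ 0 η 0 m r n 0 y G := by
  rw [sum_two η m r n y (fun z b => if G (b - z) then 1 else 0)]
  unfold ZA
  refine sum_congr rfl fun z _ => sum_congr rfl fun b _ => ?_
  have e1 : ((0 : Pt).1 + (m : ℤ), (0 : Pt).2 + z + 0) = (((m : ℤ), z) : Pt) := by simp
  have e2 : ((0 : Pt).1 + (m : ℤ) + (r : ℤ), (0 : Pt).2 + b) = ((((m + r : ℕ) : ℤ), b) : Pt) := by
    rw [Prod.mk.injEq]
    constructor
    · push_cast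
      simp
    · simp
  rw [e1, e2, sub_zero]
  split_ifs <;> ring

theorem ZB_eq_ZA (η : Env) (a : Pt) (m r n : ℕ) (y : ℤ) (G : ℤ → Prop) [DecidablePred G] :
    ZB μ 0 η a m r n 0 y G = ZA μ 0 η a m r n 0 y G := by
  unfold ZB ZA
  simp

/-- The weight of a path with fixed end point. -/
theorem gp_eq (η : Env) (N : ℕ) (y : ℤ) (S : Finset ℕ) :
    gp μ η N y S = (if pos S N = y then pth μ 0 η N S else 0) / W μ 0 η 0 N y := by
  unfold gp
  split_ifs
  · rfl
  · simp

theorem gp_nonneg (η : Env) (N : ℕ) (y : ℤ) (S : Finset ℕ) : 0 ≤ gp μ η N y S := by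
  unfold gp
  split_ifs
  · exact div_nonneg (pth_nonneg _ _ _) (W_nonneg _ _ _ _)
  · exact le_rfl

/-- The quenched probability of a displacement outside `G` in the window. -/
theorem gp_sum (η : Env) (m r n : ℕ) (y : ℤ) (G : ℤ → Prop) [DecidablePred G] (h0 : 0 ≤ y) (h1 : y ≤ ((m + r + n : ℕ) : ℤ)) :
    ∑ S ∈ (range (m + r + n)).powerset, gp μ η (m + r + n) y S * (if G (pos S (m + r) - pos S m) then 0 else 1) =
      1 - ZA μ 0 η 0 m r n 0 y G / W μ 0 η 0 (m + r + n) y := by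
  have hW := W_pos (μ := μ) (s := 0) η 0 h0 h1
  rw [← Mt_ZA, eq_sub_iff_add_eq]
  have e1 : Mt μ 0 η (m + r + n) (fun _ => 1) y / W μ 0 η 0 (m + r + n) y = 1 := by
    rw [Mt_one, div_self hW.ne']
  refine Eq.trans ?_ e1
  unfold Mt
  rw [sum_div, sum_div, ← sum_add_distrib]
  refine sum_congr rfl fun S _ => ?_
  rw [gp_eq]
  by_cases hG : G (pos S (m + r) - pos S m) <;> by_cases hy : pos S (m + r + n) = y <;> simp [hG, hy]

end

end Pool.Agent.W_7d29a1_Z74
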