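import Pool.Agent.W_7d29a1_Z74.ShJ
import Pool.Agent.W_7d29a1_Z74.RespBK

/-!
STORM Z (MP_7d29a1_pr), leaf UR: from the annealed probability of an event of the path to the quenched probability. (helper74)
-/

namespace Pool.Agent.W_7d29a1_Z74

open Finset MeasureTheory Pool.Agent.W_7d29a1_F Pool.Agent.W_7d29a1_X Pool.Agent.W_7d29a1_Z
open scoped ENNReal

noncomputable section

variable {μ : MeasureTheory.Measure ℝ}

theorem meas_pth (N : ℕ) (S : Finset ℕ) : Measurable fun η : Env => pth μ 0 η N S := by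
  unfold pth
  refine measurable_const.mul (Finset.measurable_prod _ fun i _ => ?_)
  exact Real.measurable_exp.comp (measurable_pi_apply _)

theorem meas_gp (N : ℕ) (y : ℤ) (S : Finset ℕ) : Measurable fun η : Env => gp μ η N y S := by
  unfold gp
  split_ifs
  · exact (meas_pth N S).div (measurable_W (μ := μ) (s := 0) 0 N y)
  · exact measurable_const

/-- The annealed probability of an event of the path alone. -/
theorem P1_path [IsProbabilityMeasure μ] (N : ℕ) (y : ℤ) (A : Finset ℕ → Prop) [DecidablePred A] :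
    P1 μ N y (fun _ S => A S) = ∫⁻ η, ENNReal.ofReal (∑ S ∈ (range N).powerset, gp μ η N y S * (if A S then 1 else 0)) ∂(law μ) := by
  unfold P1
  have e1 : ∀ η : Env, ENNReal.ofReal (∑ S ∈ (range N).powerset, gp μ η N y S * (if A S then 1 else 0)) =
      ∑ S ∈ (range N).powerset, ENNReal.ofReal (gp μ η N y S * (if A S then 1 else 0)) := fun η =>
    ENNReal.ofReal_sum_of_nonneg fun S _ => mul_nonneg (gp_nonneg _ _ _ _) (by split_ifs <;> norm_num)
  rw [lintegral_congr e1, lintegral_finsetSum]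
  · refine sum_congr rfl fun S _ => ?_
    by_cases h : A S
    · simp only [h, if_true, mul_one, Set.ofPred_true]
      rw [withDensity_apply _ MeasurableSet.univ, Measure.restrict_univ]
    · simp only [h, if_false, mul_zero, ENNReal.ofReal_zero, lintegral_zero, Set.ofPred_false, measure_empty]
  · intro S _
    exact ENNReal.measurable_ofReal.comp ((meas_gp N y S).mul measurable_const)

/-- Markov. -/
theorem law_le_P1 [IsProbabilityMeasure μ] (N : ℕ) (y : ℤ) (A : Finset ℕ → Prop) [DecidablePred A] :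
    law μ {η | 1 / 2 < ∑ S ∈ (range N).powerset, gp μ η N y S * (if A S then 1 else 0)} ≤ 2 * P1 μ N y (fun _ S => A S) := by
  rw [P1_path]
  have hm : Measurable fun η : Env => ENNReal.ofReal (∑ S ∈ (range N).powerset, gp μ η N y S * (if A S then 1 else 0)) :=
    ENNReal.measurable_ofReal.comp (Finset.measurable_sum _ fun S _ => (meas_gp N y S).mul measurable_const)
  have h := mul_meas_ge_le_lintegral (μ := law μ) hm (1 / 2 : ℝ≥0∞)
  have hsub : {η : Env | 1 / 2 < ∑ S ∈ (range N).powerset, gp μ η N y S * (if A S then 1 else 0)} ⊆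
      {η : Env | (1 / 2 : ℝ≥0∞) ≤ ENNReal.ofReal (∑ S ∈ (range N).powerset, gp μ η N y S * (if A S then 1 else 0))} := by
    intro η hη
    rw [Set.mem_ofPred_eq] at hη ⊢
    have e : (1 / 2 : ℝ≥0∞) = ENNReal.ofReal (1 / 2) := by
      rw [ENNReal.ofReal_div_of_pos (by norm_num)]
      simp
    rw [e]
    exact ENNReal.ofReal_le_ofReal hη.le
  have h2 := measure_mono (μ := law μ) hsub
  calc law μ {η | 1 / 2 < ∑ S ∈ (range N).powerset, gp μ η N y S * (if A S then 1 else 0)}
      ≤ law μ {η : Env | (1 / 2 : ℝ≥0∞) ≤ ENNReal.ofReal (∑ S ∈ (range N).powerset, gp μ η N y S * (if A S then 1 else 0))} := h2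
    _ = 2 * (1 / 2 * law μ {η : Env | (1 / 2 : ℝ≥0∞) ≤
          ENNReal.ofReal (∑ S ∈ (range N).powerset, gp μ η N y S * (if A S then 1 else 0))}) := by
      rw [← mul_assoc, one_div, ENNReal.mul_inv_cancel (by norm_num) (by norm_num), one_mul]
    _ ≤ 2 * ∫⁻ η, ENNReal.ofReal (∑ S ∈ (range N).powerset, gp μ η N y S * (if A S then 1 else 0)) ∂(law μ) := by
      gcongr

theorem P1_le_of [IsProbabilityMeasure μ] (N : ℕ) (y : ℤ) {A B : Finset ℕ → Prop} (h : ∀ S, A S → B S) :
    P1 μ N y (fun _ S => A S) ≤ P1 μ N y (fun _ S => B S) := by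
  unfold P1
  exact sum_le_sum fun S _ => measure_mono fun η hη => h S hη

/-- The window displacement is bad with the quenched probability at least `1 / 2`. -/
def BadW (μ : MeasureTheory.Measure ℝ) (m r n : ℕ) (y : ℤ) (D : ℝ) : Set Env :=
  {η | ¬ (W μ 0 η 0 (m + r + n) y ≤ 2 * ZA μ 0 η 0 m r n 0 y (Cn r D))}

theorem law_BadW [IsProbabilityMeasure μ] (m r n : ℕ) (y : ℤ) (D : ℝ) (h0 : 0 ≤ y) (h1 : y ≤ ((m + r + n : ℕ) : ℤ)) :
    law μ (BadW μ m r n y D) ≤ 2 * P1 μ (m + r + n) y (fun _ S => ¬ Cn r D (pos S (m + r) - pos S m)) := by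
  classical
  refine (measure_mono (fun η hη => ?_)).trans
    (law_le_P1 (m + r + n) y (fun S => ¬ Cn r D (pos S (m + r) - pos S m)))
  unfold BadW at hη
  rw [Set.mem_ofPred_eq, not_le] at hη
  rw [Set.mem_ofPred_eq]
  have hW := W_pos (μ := μ) (s := 0) η 0 h0 h1
  have e := gp_sum (μ := μ) η m r n y (Cn r D) h0 h1
  have e2 : ∑ S ∈ (range (m + r + n)).powerset, gp μ η (m + r + n) y S *
      (if ¬ Cn r D (pos S (m + r) - pos S m) then (1 : ℝ) else 0) =
      1 - ZA μ 0 η 0 m r n 0 y (Cn r D) / W μ 0 η 0 (m + r + n) y := by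
    rw [← e]
    refine sum_congr rfl fun S _ => ?_
    by_cases h : Cn r D (pos S (m + r) - pos S m) <;> simp [h]
  rw [e2, lt_sub_iff_add_lt, ← lt_sub_iff_add_lt', div_lt_iff₀ hW]
  linarith

end

end Pool.Agent.W_7d29a1_Z74
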