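import Pool.Agent.W_7d29a1_Z74.URDet

/-!
STORM Z (MP_7d29a1_pr), leaf UR: the bad events of the response of one unit dislocation and their probability, from the statement of
the leaf NS (`NSp` is spelled out). (helper74)
-/

namespace Pool.Agent.W_7d29a1_Z74

open Finset MeasureTheory Filter Topology Pool.Agent.W_7d29a1_F Pool.Agent.W_7d29a1_X Pool.Agent.W_7d29a1_Z Pool.Agent.W_7d29a1_G
open Pool.Agent.W_7d29a1_SR (In wd wd_lower wd_tendsto)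
open scoped ENNReal

noncomputable section

/-- The statement of the leaf NS. -/
def NSs (μ : Measure ℝ) : Prop :=
  ∀ ε : ℝ, 0 < ε → ∃ δ c' : ℝ, 0 < δ ∧ 0 < c' ∧ ∃ L₀ : ℕ, ∀ L : ℕ, L₀ ≤ L → ∀ N : ℕ, L ≤ 16 * N → N ≤ L →
    ∀ y : ℤ, 0 ≤ y → y ≤ N → |2 * (y : ℝ) - N| ≤ 2 * ((L : ℝ) ^ δ * wd' μ N) →
    P1 μ N y (fun _ S => ¬ ∀ i n : ℕ, 1 ≤ n → i + n ≤ N →
      |2 * ((pos S (i + n) - pos S i : ℤ) : ℝ) - n| ≤ 2 * ((L : ℝ) ^ ε * wd' μ n)) ≤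
      ENNReal.ofReal (Real.exp (-(L : ℝ) ^ c'))

variable {μ : Measure ℝ} [IsProbabilityMeasure μ] {c C : ℝ} {n₀ : ℕ}

/-- The good sub-kernels and displacements of `Rsp`. -/
def Adm (t : ℕ) (w : ℝ) (u u' : ℕ) (y : ℤ) : Prop :=
  t ≤ 16 * (u' - u) ∧ u ≤ u' ∧ u' ≤ t ∧ |2 * (y : ℝ) - ((u' : ℝ) - u)| ≤ 2 * w

open scoped Classical in
/-- The bad events. -/
def QQ (μ : Measure ℝ) (t k₀ r : ℕ) (D w : ℝ) (u u' : ℕ) (y : ℤ) : Set Env :=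
  (if u ≤ k₀ ∧ k₀ + r ≤ u' ∧ Adm t w u u' y then EA μ 1 D u (k₀ - u) r (u' - (k₀ + r)) y else ∅) ∪
    (if u + r ≤ k₀ ∧ k₀ ≤ u' ∧ Adm t w u u' y then EB μ 1 D u (k₀ - r - u) r (u' - k₀) y else ∅)

/-- The probability of one bad event. -/
theorem law_QQ {t k₀ r : ℕ} {D w κ δ p : ℝ} (hr : 1 ≤ r) (hD : D = (t : ℝ) ^ κ * wd' μ r)
    (hns : ∀ N : ℕ, t ≤ 16 * N → N ≤ t → ∀ y : ℤ, 0 ≤ y → y ≤ N → |2 * (y : ℝ) - N| ≤ 2 * ((t : ℝ) ^ δ * wd' μ N) →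
      P1 μ N y (fun _ S => ¬ ∀ i n : ℕ, 1 ≤ n → i + n ≤ N →
        |2 * ((pos S (i + n) - pos S i : ℤ) : ℝ) - n| ≤ 2 * ((t : ℝ) ^ κ * wd' μ n)) ≤ ENNReal.ofReal p)
    (hw1 : ∀ N : ℕ, t ≤ 16 * N → N ≤ t → 2 * w + 2 ≤ 2 * ((t : ℝ) ^ δ * wd' μ N)) (hw2 : 2 * w + 2 ≤ t / 16)
    (u u' : ℕ) (y : ℤ) : law μ (QQ μ t k₀ r D w u u' y) ≤ 8 * ENNReal.ofReal p := by
  have key : ∀ m n : ℕ, Adm t w u u' y → m + r + n = u' - u →
      0 ≤ y ∧ y ≤ ((m + r + n : ℕ) : ℤ) ∧ 0 ≤ y + 1 ∧ y + 1 ≤ ((m + r + n : ℕ) : ℤ) ∧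
      P1 μ (m + r + n) y (fun _ S => ¬ Cn r D (pos S (m + r) - pos S m)) ≤ ENNReal.ofReal p ∧
      P1 μ (m + r + n) (y + 1) (fun _ S => ¬ Cn r D (pos S (m + r) - pos S m)) ≤ ENNReal.ofReal p := by
    intro m n hA hN
    obtain ⟨a1, a2, a3, a4⟩ := hA
    rw [hN]
    have hNr : ((u' - u : ℕ) : ℝ) = (u' : ℝ) - u := by
      rw [Nat.cast_sub a2]
    rw [← hNr] at a4
    have hNt : (t : ℝ) / 16 ≤ ((u' - u : ℕ) : ℝ) := by
      rw [div_le_iff₀ (by norm_num)]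
      have : (t : ℝ) ≤ 16 * ((u' - u : ℕ) : ℝ) := by exact_mod_cast a1
      linarith
    have a5 := abs_le.1 a4
    have b1 : 0 ≤ y := by
      have : (0 : ℝ) ≤ y := by linarith
      exact_mod_cast this
    have b2 : y + 1 ≤ ((u' - u : ℕ) : ℤ) := by
      have : (y : ℝ) + 1 ≤ ((u' - u : ℕ) : ℝ) := by linarith
      exact_mod_cast this
    have c1 := hw1 (u' - u) a1 (by omega)
    have c2 : |2 * ((y + 1 : ℤ) : ℝ) - ((u' - u : ℕ) : ℝ)| ≤ 2 * ((t : ℝ) ^ δ * wd' μ (u' - u)) := by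
      rw [abs_le]
      push_cast
      constructor <;> linarith
    have c3 : |2 * (y : ℝ) - ((u' - u : ℕ) : ℝ)| ≤ 2 * ((t : ℝ) ^ δ * wd' μ (u' - u)) := by
      rw [abs_le]
      constructor <;> linarith
    have mono : ∀ S : Finset ℕ, (¬ Cn r D (pos S (m + r) - pos S m)) → ¬ ∀ i n : ℕ, 1 ≤ n → i + n ≤ u' - u →
        |2 * ((pos S (i + n) - pos S i : ℤ) : ℝ) - n| ≤ 2 * ((t : ℝ) ^ κ * wd' μ n) := by
      intro S h1 h2
      refine h1 ?_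
      unfold Cn
      have h3 := h2 m r hr (by omega)
      rw [← hD] at h3
      rw [abs_le] at h3 ⊢
      constructor <;> linarith
    refine ⟨b1, by omega, by omega, b2, ?_, ?_⟩
    · exact (P1_le_of _ _ mono).trans (hns _ a1 (by omega) y b1 (by omega) c3)
    · exact (P1_le_of _ _ mono).trans (hns _ a1 (by omega) (y + 1) (by omega) b2 c2)
  classical
  unfold QQ
  refine (measure_union_le _ _).trans ?_
  have e1 : law μ (if u ≤ k₀ ∧ k₀ + r ≤ u' ∧ Adm t w u u' y then EA μ 1 D u (k₀ - u) r (u' - (k₀ + r)) y else ∅) ≤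
      4 * ENNReal.ofReal p := by
    split_ifs with hc
    · obtain ⟨h1, h2, hA⟩ := hc
      obtain ⟨d1, d2, d3, d4, d5, d6⟩ := key (k₀ - u) (u' - (k₀ + r)) hA (by omega)
      exact law_two (mp_shj _ _) u (k₀ - u) r (u' - (k₀ + r)) y (y + 1) D d1 d2 d3 d4 d5 d6
    · rw [measure_empty]
      exact zero_le
  have e2 : law μ (if u + r ≤ k₀ ∧ k₀ ≤ u' ∧ Adm t w u u' y then EB μ 1 D u (k₀ - r - u) r (u' - k₀) y else ∅) ≤
      4 * ENNReal.ofReal p := by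
    split_ifs with hc
    · obtain ⟨h1, h2, hA⟩ := hc
      obtain ⟨d1, d2, d3, d4, d5, d6⟩ := key (k₀ - r - u) (u' - k₀) hA (by omega)
      exact law_two (mp_shj _ _) u (k₀ - r - u) r (u' - k₀) y (y + 1) D d1 d2 d3 d4 d5 d6
    · rw [measure_empty]
      exact zero_le
  refine (add_le_add e1 e2).trans (le_of_eq ?_)
  rw [← add_mul]
  norm_num

omit [IsProbabilityMeasure μ] in
/-- The inclusion. -/
theorem rsp_subset {K R : ℝ} {H r t k₀ : ℕ} {D w A : ℝ} (hk : k₀ < t) (hH : (t : ℤ) + 1 ≤ H)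
    (h1 : D + 1 ≤ R * wd μ r) (h2 : D + 1 ≤ r / 2) (hM : 0 ≤ (K * R ^ K + R) * EE μ r) (hr : 32 * r ≤ t)
    (hw2 : 2 * w + 2 ≤ t / 16) (hA : (K * R ^ K + R) * EE μ r + Real.log 2 ≤ A) :
    {η | ∃ u u' : ℕ, t ≤ 16 * (u' - u) ∧ u ≤ u' ∧ u' ≤ t ∧ ∃ y : ℤ, |2 * (y : ℝ) - ((u' : ℝ) - u)| ≤ 2 * w ∧
      A < |fk μ (pat t 0 {k₀} fun _ => 1) η u u' 0 y - fk μ 0 η u u' 0 y|} ⊆
    (BK μ K R H r)ᶜ ∪ ⋃ u ∈ range (t + 1), ⋃ u' ∈ range (t + 1), ⋃ y ∈ Icc (0 : ℤ) t, QQ μ t k₀ r D w u u' y := by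
  rintro η ⟨u, u', a1, a2, a3, y, a4, a5⟩
  by_contra hc
  rw [Set.mem_union, not_or, Set.notMem_compl_iff] at hc
  obtain ⟨hη, hc⟩ := hc
  have hNr : ((u' - u : ℕ) : ℝ) = (u' : ℝ) - u := by
    rw [Nat.cast_sub a2]
  have hNt : (t : ℝ) / 16 ≤ ((u' - u : ℕ) : ℝ) := by
    rw [div_le_iff₀ (by norm_num)]
    have : (t : ℝ) ≤ 16 * ((u' - u : ℕ) : ℝ) := by exact_mod_cast a1
    linarith
  have a6 := abs_le.1 a4
  have b1 : 0 ≤ y := by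
    have : (0 : ℝ) ≤ y := by linarith
    exact_mod_cast this
  have b2 : y + 1 ≤ ((u' - u : ℕ) : ℤ) := by
    have : (y : ℝ) + 1 ≤ ((u' - u : ℕ) : ℝ) := by linarith
    exact_mod_cast this
  have hQ : η ∉ QQ μ t k₀ r D w u u' y := by
    intro hq
    refine hc ?_
    simp only [Set.mem_iUnion]
    exact ⟨u, mem_range.2 (by omega), u', mem_range.2 (by omega), y, mem_Icc.2 ⟨b1, by omega⟩, hq⟩
  unfold QQ at hQ
  rw [Set.mem_union, not_or] at hQ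
  obtain ⟨hQ1, hQ2⟩ := hQ
  have hadm : Adm t w u u' y := ⟨a1, a2, a3, a4⟩
  have habs : |((1 : ℤ) : ℝ)| = 1 := by norm_num
  have key := det_one (μ := μ) hη (D := D) (t := t) (k₀ := k₀) (u := u) (u' := u') (j := 1) (y := y) hk a3
    (by rw [abs_one]; exact hH) (by rw [habs]; exact h1) (by rw [habs]; exact h2) b1 (by omega) hM (by omega)
    (fun g1 g2 => by rw [if_pos ⟨g1, g2, hadm⟩] at hQ1; exact hQ1)
    (fun g1 g2 => by rw [if_pos ⟨g1, g2, hadm⟩] at hQ2; exact hQ2)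
  linarith

omit [IsProbabilityMeasure μ] in
/-- The union of the bad events. -/
theorem union_QQ {t k₀ r : ℕ} {D w p : ℝ} (_hp : 0 ≤ p) (hk0 : ∀ (u u' : ℕ) (y : ℤ), law μ (QQ μ t k₀ r D w u u' y) ≤ 8 * ENNReal.ofReal p) :
    law μ (⋃ u ∈ range (t + 1), ⋃ u' ∈ range (t + 1), ⋃ y ∈ Icc (0 : ℤ) t, QQ μ t k₀ r D w u u' y) ≤
      ENNReal.ofReal (((t : ℝ) + 1) ^ 3 * (8 * p)) := by
  have k1 : law μ (⋃ u ∈ range (t + 1), ⋃ u' ∈ range (t + 1), ⋃ y ∈ Icc (0 : ℤ) t, QQ μ t k₀ r D w u u' y) ≤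
      ∑ u ∈ range (t + 1), ∑ u' ∈ range (t + 1), ∑ y ∈ Icc (0 : ℤ) t, 8 * ENNReal.ofReal p := by
    refine (measure_biUnion_finset_le _ _).trans (sum_le_sum fun u _ => ?_)
    refine (measure_biUnion_finset_le _ _).trans (sum_le_sum fun u' _ => ?_)
    exact (measure_biUnion_finset_le _ _).trans (sum_le_sum fun y _ => hk0 u u' y)
  refine k1.trans (le_of_eq ?_)
  rw [sum_const, sum_const, sum_const, card_range, Int.card_Icc]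
  have e5 : ((t : ℤ) + 1 - 0).toNat = t + 1 := by omega
  rw [e5, smul_smul, smul_smul, nsmul_eq_mul]
  rw [ENNReal.ofReal_mul (by positivity), ENNReal.ofReal_mul (by norm_num)]
  have e6 : ENNReal.ofReal (((t : ℝ) + 1) ^ 3) = (((t + 1) * (t + 1) * (t + 1) : ℕ) : ℝ≥0∞) := by
    rw [← ENNReal.ofReal_natCast]
    congr 1
    push_cast
    ring
  have e7 : ENNReal.ofReal 8 = 8 := by norm_num
  rw [e6, e7, mul_assoc (t + 1)]

end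

end Pool.Agent.W_7d29a1_Z74
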