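import Pool.Agent.W_7d29a1_Z74.URWQ
import Pool.Agent.W_7d29a1_Z74.URNum
import Pool.Agent.W_7d29a1_Z74.Num74

/-!
STORM Z (MP_7d29a1_pr), leaf UR, window version: the response of one dislocation by `j`, `|j| ≤ wd r`, at any row of `[0, t)`, is at
most `t ^ ε EE r`, for all `t` and all `r` in `[t ^ e, t / 32]`. The hypothesis is the statement of the leaf NS. (helper74)
-/

namespace Pool.Agent.W_7d29a1_Z74

open Finset MeasureTheory Filter Topology Pool.Agent.W_7d29a1_F Pool.Agent.W_7d29a1_X Pool.Agent.W_7d29a1_Z Pool.Agent.W_7d29a1_G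
open Pool.Agent.W_7d29a1_SR (In wd wd_lower wd_tendsto wd_growth)
open scoped ENNReal

noncomputable section

/-- The window is wide enough. -/
theorem numW_D {Kv av e κ t r wr j : ℝ} (hKv : 1 ≤ Kv) (hav : 0 < av) (ht1 : 1 ≤ t) (hr0 : 0 < r) (hr1 : t ^ e ≤ r)
    (hκ0 : 0 ≤ κ) (hκ1 : κ ≤ av * e / 2) (p3 : 4 * Kv ≤ t ^ (av * e / 2)) (hwr0 : 0 ≤ wr) (hwr : wr ≤ Kv * r ^ (-av) * r)
    (hj : j ≤ wr) : t ^ κ * wr + j ≤ r / 2 := by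
  have ht0 : 0 < t := by linarith
  have k3 : r ^ (-av) ≤ t ^ (-(av * e)) := by
    have k4 : (t ^ e) ^ av ≤ r ^ av := Real.rpow_le_rpow (by positivity) hr1 hav.le
    rw [Real.rpow_neg hr0.le, Real.rpow_neg ht0.le, mul_comm av, Real.rpow_mul ht0.le]
    exact inv_anti₀ (by positivity) k4
  have k5 : t ^ κ * t ^ (-(av * e)) ≤ (t ^ (av * e / 2))⁻¹ := by
    rw [← Real.rpow_add ht0, ← Real.rpow_neg ht0.le]
    exact Real.rpow_le_rpow_of_exponent_le ht1 (by linarith)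
  have k6 : Kv * (t ^ (av * e / 2))⁻¹ ≤ 1 / 4 := by
    rw [← div_eq_mul_inv, div_le_iff₀ (by positivity)]
    linarith
  have k7 : t ^ κ * wr ≤ 1 / 4 * r := by
    calc t ^ κ * wr ≤ t ^ κ * (Kv * r ^ (-av) * r) := mul_le_mul_of_nonneg_left hwr (by positivity)
      _ ≤ t ^ κ * (Kv * t ^ (-(av * e)) * r) := by
        refine mul_le_mul_of_nonneg_left (mul_le_mul_of_nonneg_right (mul_le_mul_of_nonneg_left k3 (by linarith)) hr0.le)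
          (by positivity)
      _ = Kv * (t ^ κ * t ^ (-(av * e))) * r := by ring
      _ ≤ Kv * (t ^ (av * e / 2))⁻¹ * r :=
        mul_le_mul_of_nonneg_right (mul_le_mul_of_nonneg_left k5 (by linarith)) hr0.le
      _ ≤ 1 / 4 * r := mul_le_mul_of_nonneg_right k6 hr0.le
  have k8 : wr ≤ t ^ κ * wr := le_mul_of_one_le_left hwr0 (Real.one_le_rpow ht1 hκ0)
  linarith

/-- The response is small enough. -/
theorem numW_M {K₀ κ e t E : ℝ} (hK₀ : 1 ≤ K₀) (ht1 : 1 ≤ t) (he : 0 ≤ e) (hκ2 : κ * K₀ ≤ e) (hκ3 : κ ≤ e) (hE : 1 ≤ E) :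
    (K₀ * (2 * t ^ κ) ^ K₀ + 2 * t ^ κ) * E + Real.log 2 ≤ (K₀ * 2 ^ K₀ + 3) * t ^ e * E := by
  have ht0 : 0 < t := by linarith
  have hK0 : 0 < K₀ := by linarith
  have k1 : (2 * t ^ κ) ^ K₀ ≤ 2 ^ K₀ * t ^ e := by
    rw [Real.mul_rpow (by norm_num) (by positivity), ← Real.rpow_mul ht0.le]
    exact mul_le_mul_of_nonneg_left (Real.rpow_le_rpow_of_exponent_le ht1 hκ2) (by positivity)
  have k2 : 2 * t ^ κ ≤ 2 * t ^ e :=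
    mul_le_mul_of_nonneg_left (Real.rpow_le_rpow_of_exponent_le ht1 hκ3) (by norm_num)
  have k4 : K₀ * (2 * t ^ κ) ^ K₀ + 2 * t ^ κ ≤ (K₀ * 2 ^ K₀ + 2) * t ^ e := by
    have := mul_le_mul_of_nonneg_left k1 hK0.le
    linarith
  have k6 : 1 ≤ t ^ e := Real.one_le_rpow ht1 he
  have k7 : Real.log 2 ≤ 1 := by
    have := Real.log_two_lt_d9
    linarith
  have k8 : 1 ≤ t ^ e * E := one_le_mul_of_one_le_of_one_le k6 hE
  have k9 := mul_le_mul_of_nonneg_right k4 (show 0 ≤ E by linarith)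
  linarith

/-- The cone of `Rsp` is in the cone of NS. -/
theorem numW_cone1 {δ δ₁ t N wt wN j : ℝ} (ht1 : 1 ≤ t) (hδ0 : 0 < δ) (hδ1 : δ ≤ δ₁ / 2) (p4 : 34 ≤ t ^ (δ₁ / 2)) (hN0 : 0 < N)
    (hN1 : t ≤ 16 * N) (hwN : 1 ≤ wN) (k1 : N * wt ≤ 2 * (t * wN)) (hj : j ≤ 2 * wN) :
    2 * (t ^ δ * wt) + 2 * j ≤ 2 * (t ^ δ₁ * wN) := by
  have ht0 : 0 < t := by linarith
  have htδ : 1 ≤ t ^ δ := Real.one_le_rpow ht1 hδ0.le
  have k2 : wt ≤ 32 * wN := by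
    have k3 : N * wt ≤ N * (32 * wN) := by
      have : t * wN ≤ 16 * N * wN := mul_le_mul_of_nonneg_right hN1 (by linarith)
      linarith
    exact le_of_mul_le_mul_left k3 hN0
  have k4 : t ^ δ₁ = t ^ (δ₁ / 2) * t ^ (δ₁ / 2) := by
    rw [← Real.rpow_add ht0]
    congr 1
    ring
  have k5 : t ^ δ ≤ t ^ (δ₁ / 2) := Real.rpow_le_rpow_of_exponent_le ht1 hδ1
  have k6 : 34 * t ^ δ ≤ t ^ δ₁ := by
    rw [k4]
    exact mul_le_mul p4 k5 (by positivity) (by positivity)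
  have k7 : t ^ δ * wt ≤ t ^ δ * (32 * wN) := mul_le_mul_of_nonneg_left k2 (by positivity)
  have k8 : 34 * t ^ δ * wN ≤ t ^ δ₁ * wN := mul_le_mul_of_nonneg_right k6 (by linarith)
  have k9 : wN ≤ t ^ δ * wN := le_mul_of_one_le_left (by linarith) htδ
  linarith

/-- The cone of `Rsp` is narrow. -/
theorem numW_cone2 {Kv av δ t wt j : ℝ} (ht1 : 1 ≤ t) (hδ0 : 0 ≤ δ) (hδ2 : δ ≤ av / 2) (p5 : Kv * t ^ (1 - av / 2) ≤ 1 / 96 * t)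
    (hwt0 : 0 ≤ wt) (hwt : wt ≤ Kv * t ^ (-av) * t) (hj : j ≤ 2 * wt) : 2 * (t ^ δ * wt) + 2 * j ≤ t / 16 := by
  have ht0 : 0 < t := by linarith
  have k3 : t ^ δ ≤ t ^ (av / 2) := Real.rpow_le_rpow_of_exponent_le ht1 hδ2
  have k4 : t ^ (1 - av / 2) = t ^ (av / 2) * t ^ (-av) * t := by
    rw [← Real.rpow_add ht0, ← Real.rpow_add_one ht0.ne']
    congr 1
    ring
  have k5 : t ^ δ * wt ≤ 1 / 96 * t := by
    calc t ^ δ * wt ≤ t ^ (av / 2) * (Kv * t ^ (-av) * t) := mul_le_mul k3 hwt hwt0 (by positivity)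
      _ = Kv * (t ^ (av / 2) * t ^ (-av) * t) := by ring
      _ ≤ 1 / 96 * t := by rw [← k4]; exact p5
  have k6 : wt ≤ t ^ δ * wt := le_mul_of_one_le_left hwt0 (Real.one_le_rpow ht1 hδ0)
  linarith

/-- The probability of irregular kernels. -/
theorem numW_BK {A₀ a₀ g₀ κ cc t R r q : ℝ} (hA₀ : 0 < A₀) (ha₀ : 0 < a₀) (hg₀ : 0 < g₀) (ht : 1 ≤ t) (hR : R = 2 * t ^ κ)
    (hr0 : 0 < r) (hrt : r + 2 ≤ 2 * t) (hq : q ≤ (2 * (2 * t) + 1) ^ 2 * ((r + 2) * (A₀ * Real.exp (-(a₀ * R ^ g₀)))))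
    (p7 : 100 * A₀ * t ^ (3 : ℝ) * Real.exp (-(a₀ * t ^ (κ * g₀))) ≤ 1 / 2 * Real.exp (-t ^ cc)) :
    q ≤ 1 / 2 * Real.exp (-t ^ cc) := by
  have ht0 : 0 < t := by linarith
  refine hq.trans (le_trans ?_ p7)
  have k1 : (2 * (2 * t) + 1) ^ 2 ≤ 25 * t ^ 2 := by nlinarith
  have k3 : a₀ * t ^ (κ * g₀) ≤ a₀ * R ^ g₀ := by
    refine mul_le_mul_of_nonneg_left ?_ ha₀.le
    rw [Real.rpow_mul ht0.le]
    exact Real.rpow_le_rpow (by positivity) (by rw [hR]; linarith [Real.rpow_nonneg ht0.le κ]) hg₀.le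
  have k4 : Real.exp (-(a₀ * R ^ g₀)) ≤ Real.exp (-(a₀ * t ^ (κ * g₀))) := Real.exp_le_exp.2 (by linarith)
  have k5 : t ^ (3 : ℝ) = t ^ 3 := by
    rw [← Real.rpow_natCast]
    norm_num
  rw [k5]
  calc (2 * (2 * t) + 1) ^ 2 * ((r + 2) * (A₀ * Real.exp (-(a₀ * R ^ g₀))))
      ≤ 25 * t ^ 2 * (2 * t * (A₀ * Real.exp (-(a₀ * t ^ (κ * g₀))))) := by
        refine mul_le_mul k1 (mul_le_mul hrt (mul_le_mul_of_nonneg_left k4 hA₀.le) (by positivity) (by positivity))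
          (by positivity) (by positivity)
    _ = 50 * (A₀ * t ^ 3 * Real.exp (-(a₀ * t ^ (κ * g₀)))) := by ring
    _ ≤ 100 * (A₀ * t ^ 3 * Real.exp (-(a₀ * t ^ (κ * g₀)))) :=
      mul_le_mul_of_nonneg_right (by norm_num) (by positivity)
    _ = 100 * A₀ * t ^ 3 * Real.exp (-(a₀ * t ^ (κ * g₀))) := by ring

variable {μ : Measure ℝ} [IsProbabilityMeasure μ] {c C : ℝ} {n₀ : ℕ}

/-- The width is nondecreasing up to the factor `2`. -/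
theorem wd_le_two_mul (h : In μ c C n₀) : ∃ n₁ : ℕ, ∀ m n : ℕ, n₁ ≤ m → m ≤ n → wd μ m ≤ 2 * wd μ n := by
  obtain ⟨n₁, h1⟩ := wd_growth h
  refine ⟨n₁, fun m n hm hmn => ?_⟩
  have h2 := h1 m n hm hmn
  have h3 : EE μ m ≤ EE μ n := EE_mono hmn
  have h4 : 0 < EE μ n := lt_of_lt_of_le one_pos (one_le_EE n)
  have h5 : 0 ≤ wd μ n := by
    unfold wd
    exact mul_nonneg (vA_nonneg h.em zero_le_one n) (Nat.cast_nonneg n)
  have h6 : wd μ m * EE μ n ≤ 2 * wd μ n * EE μ n := by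
    refine h2.trans ?_
    have := mul_le_mul_of_nonneg_right h3 h5
    linarith
  exact le_of_mul_le_mul_right h6 h4

/-- **The response of one dislocation**, window version. -/
theorem rsp_one (h : In μ c C n₀) (hF : HF2 μ) (hns : NSs μ) {e ε : ℝ} (he : 0 < e) (hε : 0 < ε) :
    ∃ δ c' : ℝ, 0 < δ ∧ 0 < c' ∧ ∃ t₀ : ℕ, ∀ t : ℕ, t₀ ≤ t → ∀ r : ℕ, (t : ℝ) ^ e ≤ r → 32 * r ≤ t →
      ∀ j : ℤ, |(j : ℝ)| ≤ wd μ r → ∀ k₀ : ℕ, k₀ < t →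
      Rsp μ t {k₀} j ((t : ℝ) ^ δ * wd μ t) ((t : ℝ) ^ ε * EE μ r) (Real.exp (-(t : ℝ) ^ c')) := by
  obtain ⟨K₀, A₀, a₀, g₀, hK₀, hA₀, ha₀, hg₀, hg₀1, hBK⟩ := BK_prob h hF
  obtain ⟨Kv, av, hKv, hav, hav1, hvA⟩ := vA_neg h hF
  obtain ⟨n₁, hwl⟩ := wd_lower h
  obtain ⟨n₃, hwm⟩ := wd_le_two_mul h
  obtain ⟨n₂, hw1⟩ := (tendsto_atTop.1 (wd_tendsto h) 1).exists_forall_of_atTop
  obtain ⟨κ, hκ⟩ : ∃ κ : ℝ, κ = min (av * e / 2) (ε / (2 * K₀)) := ⟨_, rfl⟩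
  have hκ0 : 0 < κ := by rw [hκ]; exact lt_min (by positivity) (by positivity)
  have hκ1 : κ ≤ av * e / 2 := by rw [hκ]; exact min_le_left _ _
  have hκ2 : κ ≤ ε / (2 * K₀) := by rw [hκ]; exact min_le_right _ _
  have hκ2' : κ * K₀ ≤ ε / 2 := by
    rw [le_div_iff₀ (by positivity)] at hκ2
    linarith
  have hκ3 : κ ≤ ε / 2 := by
    have : κ ≤ κ * K₀ := le_mul_of_one_le_right hκ0.le hK₀
    linarith
  obtain ⟨δ₁, c₁, hδ₁, hc₁, L₀, hns'⟩ := hns κ hκ0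
  obtain ⟨δ, hδ⟩ : ∃ δ : ℝ, δ = min (δ₁ / 2) (av / 2) := ⟨_, rfl⟩
  have hδ0 : 0 < δ := by rw [hδ]; exact lt_min (by positivity) (by positivity)
  have hδ1 : δ ≤ δ₁ / 2 := by rw [hδ]; exact min_le_left _ _
  have hδ2 : δ ≤ av / 2 := by rw [hδ]; exact min_le_right _ _
  obtain ⟨cc, hcc⟩ : ∃ cc : ℝ, cc = min c₁ (κ * g₀) / 2 := ⟨_, rfl⟩
  have hm0 : 0 < min c₁ (κ * g₀) := lt_min hc₁ (by positivity)
  have hcc0 : 0 < cc := by rw [hcc]; linarith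
  have hcc1 : cc < c₁ := by
    have := min_le_left c₁ (κ * g₀)
    rw [hcc]
    linarith
  have hcc2 : cc < κ * g₀ := by
    have := min_le_right c₁ (κ * g₀)
    rw [hcc]
    linarith
  -- the large times
  have hev : ∀ᶠ t : ℕ in atTop, (L₀ ≤ t ∧ 1 ≤ t ∧ 16 * n₁ ≤ t ∧ 16 * n₂ ≤ t) ∧ (n₂ : ℝ) + n₃ + 1 ≤ (t : ℝ) ^ e ∧
      (4 * Kv ≤ (t : ℝ) ^ (av * e / 2) ∧ 34 ≤ (t : ℝ) ^ (δ₁ / 2) ∧
        Kv * (t : ℝ) ^ (1 - av / 2) ≤ 1 / 96 * (t : ℝ) ^ (1 : ℝ)) ∧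
      ((K₀ * 2 ^ K₀ + 3) * (t : ℝ) ^ (ε / 2) ≤ 1 * (t : ℝ) ^ ε) ∧
      (100 * A₀ * (t : ℝ) ^ (3 : ℝ) * Real.exp (-(a₀ * (t : ℝ) ^ (κ * g₀))) ≤ 1 / 2 * Real.exp (-(t : ℝ) ^ cc)) ∧
      (64 * (t : ℝ) ^ (3 : ℝ) * Real.exp (-(1 * (t : ℝ) ^ c₁)) ≤ 1 / 2 * Real.exp (-(t : ℝ) ^ cc)) := by
    refine ((eventually_ge_atTop L₀).and ((eventually_ge_atTop 1).and ((eventually_ge_atTop (16 * n₁)).and
      (eventually_ge_atTop (16 * n₂))))).and ((ev_pow he _).and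
      (((ev_pow (by positivity) _).and ((ev_pow (by positivity) _).and (ev_pow_le (by linarith) (by norm_num)))).and
      ((ev_pow_le (by linarith) one_pos).and ((ev_exp (by positivity) ha₀ (by positivity) hcc2 3).and
      (ev_exp (by norm_num) one_pos hc₁ hcc1 3)))))
  obtain ⟨t₀, ht₀⟩ := hev.exists_forall_of_atTop
  refine ⟨δ, cc, hδ0, hcc0, t₀, fun t ht r hre hrt j hj k₀ hk₀ => ?_⟩
  obtain ⟨⟨s1, s2, s3, s4⟩, p1, ⟨p3, p4, p5⟩, p6, p7, p8⟩ := ht₀ t ht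
  clear hev ht₀ hns
  rw [Real.rpow_one] at p5
  rw [one_mul] at p6 p8
  have ht1 : (1 : ℝ) ≤ t := by exact_mod_cast s2
  have ht0 : (0 : ℝ) < t := by linarith
  -- the window
  have hn2' : (0 : ℝ) ≤ n₂ := Nat.cast_nonneg _
  have hn3' : (0 : ℝ) ≤ n₃ := Nat.cast_nonneg _
  have hrn : n₂ ≤ r := by
    have : (n₂ : ℝ) ≤ r := by linarith
    exact_mod_cast this
  have hrn3 : n₃ ≤ r := by
    have : (n₃ : ℝ) ≤ r := by linarith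
    exact_mod_cast this
  have hr1 : (1 : ℝ) ≤ r := by linarith
  have hr0 : (0 : ℝ) < r := by linarith
  have hr1' : 1 ≤ r := by exact_mod_cast hr1
  have hrt' : (32 : ℝ) * r ≤ t := by exact_mod_cast hrt
  have hwr : 1 ≤ wd μ r := hw1 r hrn
  have hwr' : wd' μ r = wd μ r := max_eq_right hwr
  have hwrv : wd μ r ≤ Kv * (r : ℝ) ^ (-av) * r := by
    unfold wd
    exact mul_le_mul_of_nonneg_right (hvA r hr1') hr0.le
  have htκ : 1 ≤ (t : ℝ) ^ κ := Real.one_le_rpow ht1 hκ0.le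
  have hR1 : 1 ≤ 2 * (t : ℝ) ^ κ := by linarith
  have g1 : (t : ℝ) ^ κ * wd' μ r + |(j : ℝ)| ≤ 2 * (t : ℝ) ^ κ * wd μ r := by
    rw [hwr']
    have : wd μ r ≤ (t : ℝ) ^ κ * wd μ r := le_mul_of_one_le_left (by linarith) htκ
    linarith
  have g2 : (t : ℝ) ^ κ * wd' μ r + |(j : ℝ)| ≤ r / 2 := by
    rw [hwr']
    exact numW_D hKv hav ht1 hr0 hre hκ0.le hκ1 p3 (by linarith) hwrv hj
  have hEr : 1 ≤ EE μ r := one_le_EE r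
  have hM : 0 ≤ (K₀ * (2 * (t : ℝ) ^ κ) ^ K₀ + 2 * (t : ℝ) ^ κ) * EE μ r := by positivity
  have g3 : (K₀ * (2 * (t : ℝ) ^ κ) ^ K₀ + 2 * (t : ℝ) ^ κ) * EE μ r + Real.log 2 ≤ (t : ℝ) ^ ε * EE μ r :=
    (numW_M hK₀ ht1 (by linarith) hκ2' hκ3 hEr).trans (mul_le_mul_of_nonneg_right p6 (by linarith))
  -- the cone
  have g4 : ∀ N : ℕ, t ≤ 16 * N → N ≤ t → 2 * ((t : ℝ) ^ δ * wd μ t) + 2 * |(j : ℝ)| ≤ 2 * ((t : ℝ) ^ δ₁ * wd' μ N) := by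
    intro N hN1 hN2
    have hN1' : (t : ℝ) ≤ 16 * N := by exact_mod_cast hN1
    have hwN : 1 ≤ wd μ N := hw1 N (by omega)
    have hwN' : wd' μ N = wd μ N := max_eq_right hwN
    rw [hwN']
    exact numW_cone1 ht1 hδ0 hδ1 p4 (by linarith) hN1' hwN (hwl N t (by omega) hN2) (hj.trans (hwm r N hrn3 (by omega)))
  have g5 : 2 * ((t : ℝ) ^ δ * wd μ t) + 2 * |(j : ℝ)| ≤ (t : ℝ) / 16 := by
    refine numW_cone2 ht1 hδ0.le hδ2 p5 (by linarith [hw1 t (by omega)]) ?_ (hj.trans (hwm r t hrn3 (by omega)))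
    unfold wd
    exact mul_le_mul_of_nonneg_right (hvA t (by omega)) ht0.le
  have g6 : (t : ℤ) + |j| ≤ ((2 * t : ℕ) : ℤ) := by
    have e1 : |(j : ℝ)| ≤ t := by
      have e2 := vA_le (μ := μ) h.em zero_le_one r
      have e3 : wd μ r ≤ 1 / 2 * r := by
        unfold wd
        exact mul_le_mul_of_nonneg_right e2 hr0.le
      linarith
    have e4 : |j| ≤ (t : ℤ) := by exact_mod_cast e1
    push_cast
    linarith
  -- the events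
  unfold Rsp
  have hold : {η | ∃ u u' : ℕ, t ≤ 16 * (u' - u) ∧ u ≤ u' ∧ u' ≤ t ∧ ∃ y : ℤ,
      |2 * (y : ℝ) - ((u' : ℝ) - u)| ≤ 2 * ((t : ℝ) ^ δ * wd μ t) ∧ (t : ℝ) ^ ε * EE μ r <
      |fk μ (pat t 0 {k₀} fun _ => j) η u u' 0 y - fk μ 0 η u u' 0 y|} ⊆ _ :=
    rspJ_subset (μ := μ) (K := K₀) (R := 2 * (t : ℝ) ^ κ) (H := 2 * t) (r := r) (k₀ := k₀)
      (D := (t : ℝ) ^ κ * wd' μ r) (w := (t : ℝ) ^ δ * wd μ t) hk₀ g6 g1 g2 hM hrt g5 g3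
  refine (measure_mono (Set.Subset.trans (fun η hη => ?_) hold)).trans ((measure_union_le _ _).trans ?_)
  · obtain ⟨u, u', h1, h2, h3, y, h4⟩ := hη
    exact ⟨u, u', by omega, by omega, h3, y, h4⟩
  have f1 : law μ (BK μ K₀ (2 * (t : ℝ) ^ κ) (2 * t) r)ᶜ ≤ ENNReal.ofReal (1 / 2 * Real.exp (-(t : ℝ) ^ cc)) := by
    rw [← ENNReal.ofReal_toReal (measure_ne_top (law μ) (BK μ K₀ (2 * (t : ℝ) ^ κ) (2 * t) r)ᶜ)]
    refine ENNReal.ofReal_le_ofReal (numW_BK hA₀ ha₀ hg₀ ht1 rfl hr0 (by linarith) ?_ p7)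
    have := hBK r hr1' (2 * t) (2 * (t : ℝ) ^ κ) hR1
    push_cast at this
    exact this
  have f2 := union_QJ (μ := μ) (j := j) (t := t) (k₀ := k₀) (r := r) (D := (t : ℝ) ^ κ * wd' μ r) (w := (t : ℝ) ^ δ * wd μ t)
    (Real.exp_pos (-(t : ℝ) ^ c₁)).le fun u u' y =>
      law_QJ hr1' rfl (fun N hN1 hN2 y' hy0 hy1 hy => hns' t s1 N hN1 hN2 y' hy0 hy1 hy) g4 g5 u u' y
  have f3 : ((t : ℝ) + 1) ^ 3 * (8 * Real.exp (-(t : ℝ) ^ c₁)) ≤ 1 / 2 * Real.exp (-(t : ℝ) ^ cc) := by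
    refine le_trans ?_ p8
    have k5 : (t : ℝ) ^ (3 : ℝ) = (t : ℝ) ^ 3 := by
      rw [← Real.rpow_natCast]
      norm_num
    rw [k5]
    have k6 : ((t : ℝ) + 1) ^ 3 ≤ 8 * (t : ℝ) ^ 3 := by
      have : (t : ℝ) + 1 ≤ 2 * t := by linarith
      calc ((t : ℝ) + 1) ^ 3 ≤ (2 * t) ^ 3 := pow_le_pow_left₀ (by positivity) this 3
        _ = 8 * (t : ℝ) ^ 3 := by ring
    calc ((t : ℝ) + 1) ^ 3 * (8 * Real.exp (-(t : ℝ) ^ c₁)) ≤ 8 * (t : ℝ) ^ 3 * (8 * Real.exp (-(t : ℝ) ^ c₁)) :=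
          mul_le_mul_of_nonneg_right k6 (by positivity)
      _ = 64 * (t : ℝ) ^ 3 * Real.exp (-(t : ℝ) ^ c₁) := by ring
  refine (add_le_add f1 (f2.trans (ENNReal.ofReal_le_ofReal f3))).trans (le_of_eq ?_)
  rw [← ENNReal.ofReal_add (by positivity) (by positivity)]
  congr 1
  ring

end

end Pool.Agent.W_7d29a1_Z74
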